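import Pool.Agent.N883.DQ.Fin
import Pool.Agent.Y655.XT.Shavc
import Pool.Agent.Y667.BKP.Main

/-!
# The Selmer groups of the curves in the intermediate Jacobians
-/

set_option autoImplicit false
set_option linter.unusedSectionVars false
set_option linter.unusedVariables false
set_option linter.style.haveILetI false

open scoped Classical

namespace Pool.Agent.N883.DQ

open Finset NumberField IsDedekindDomain WeierstrassCurve
open Pool.Agent.Y703.CT (Cls NoSplit Base)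
open Pool.Agent.R432.JG (twN Cl AG fac_tw pre_of tw_cls Pre all_good)
open Pool.Agent.R432.C (ED)
open Pool.Agent.TH841.NF.D (Sha)
open Pool.Agent.Y700 (VR)

/-- both sides of the conjecture are zero -/
def BZ {F : Type} [Field F] [NumberField F] (W : WeierstrassCurve F) : Prop :=
  W.IsElliptic ∧ (∀ x : TensorProduct ℤ W.toAffine.Point ℚ_[3], x = 0) ∧
    ∀ x : Pool.Agent.Y667.BKP.H1f 3 W, x = 0

lemma bz_of {F : Type} [Field F] [NumberField F] {W : WeierstrassCurve F} (hΔ : W.Δ ≠ 0)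
    (hfin : Finite W.toAffine.Point) (m : ℕ)
    (hS : ∀ (k : ℕ) (x : Sha W), (3 ^ k : ℕ) • x = 0 → (3 ^ m : ℕ) • x = 0) : BZ W :=
  ⟨⟨isUnit_iff_ne_zero.2 hΔ⟩, Pool.Agent.Y667.BKP.tensor_zero 3,
    Pool.Agent.Y667.BKP.h1f_zero Nat.prime_three hfin m hS⟩

section field
variable {K : Type} [Field K] [NumberField K]

lemma ED_disc (d : K) : (ED d).Δ = -27 * d ^ 4 := by
  unfold ED WeierstrassCurve.Δ WeierstrassCurve.b₂ WeierstrassCurve.b₄ WeierstrassCurve.b₆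
    WeierstrassCurve.b₈
  ring

lemma ED_ne {d : K} (hd : d ≠ 0) : (ED d).Δ ≠ 0 := by
  rw [ED_disc]
  exact mul_ne_zero (by norm_num) (pow_ne_zero 4 hd)

/-- the change of variables -/
lemma vr_tw {δ : ℤ} {N : ℕ} {z : 𝓞 K} (hz : z ≠ 0)
    (h : ((δ : ℤ) : 𝓞 K) = (N : 𝓞 K) * z ^ 3) :
    VR (ED ((δ : ℤ) : K)) (ED ((N : ℕ) : K)) (z : K) 0 0 0 := by
  have hzK : (z : K) ≠ 0 := by
    intro h
    exact hz (RingOfIntegers.ext (by rw [h]; rfl))
  have hδK : ((δ : ℤ) : K) = ((N : ℕ) : K) * (z : K) ^ 3 := by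
    have := congrArg (fun x : 𝓞 K => (x : K)) h
    push_cast at this
    exact this
  refine ⟨hzK, ?_, ?_, ?_, ?_, ?_⟩ <;> simp [ED]
  rw [hδK]
  ring

/-- `H¹_f` of the twist by a cube -/
theorem bz_tw {δ : ℤ} {N : ℕ} (h : IsTwK K δ N) (hN0 : N ≠ 0)
    (hf : Finite (ED ((N : ℕ) : K)).toAffine.Point) {m : ℕ}
    (hS : ∀ (k : ℕ) (x : Sha (ED ((N : ℕ) : K))), (3 ^ k : ℕ) • x = 0 → (3 ^ m : ℕ) • x = 0) :
    BZ (ED ((δ : ℤ) : K)) := by
  have hNK : ((N : ℕ) : K) ≠ 0 := by exact_mod_cast hN0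
  have hfin := fin_K h hN0 hf
  obtain ⟨z, hz, hδ⟩ := h
  have hzK : (z : K) ≠ 0 := by
    intro h
    exact hz (RingOfIntegers.ext (by rw [h]; rfl))
  have hδK : ((δ : ℤ) : K) ≠ 0 := by
    have h1 : ((δ : ℤ) : K) = ((N : ℕ) : K) * (z : K) ^ 3 := by
      have := congrArg (fun x : 𝓞 K => (x : K)) hδ
      push_cast at this
      exact this
    rw [h1]
    exact mul_ne_zero hNK (pow_ne_zero 3 hzK)
  let I : Sha (ED ((N : ℕ) : K)) ≃+ Sha (ED ((δ : ℤ) : K)) :=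
    (Pool.Agent.Y655.XT.isoVR (vr_tw hz hδ) (ED_ne hNK)).sha
  refine bz_of (ED_ne hδK) hfin m fun k x hx => ?_
  have h1 := hS k (I.symm x) (by rw [← map_nsmul, hx, map_zero])
  rw [← map_nsmul] at h1
  have h2 := congrArg I h1
  rwa [I.apply_symm_apply, map_zero] at h2

/-- the decomposition of the cohomology -/
def Decomposition (K : Type) [Field K] [NumberField K] (B c : ℕ) (a : Fin (2 * c + 3) → ℤ) :
    Prop :=
  ∀ v : HeightOneSpectrum (𝓞 K), (B : 𝓞 K) ∉ v.asIdeal →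
    ∃ β : Finset (Fin (2 * c + 3)) → ℂ,
      (∀ T, β T * (starRingEnd ℂ) (β T) = Ideal.absNorm v.asIdeal ∧
        (Nat.card {P : (𝓞 K ⧸ v.asIdeal) × (𝓞 K ⧸ v.asIdeal) //
          P.2 ^ 2 + ((Dt a T : ℤ) : 𝓞 K ⧸ v.asIdeal) * P.2 = P.1 ^ 3} : ℂ) =
            Ideal.absNorm v.asIdeal - (β T + (starRingEnd ℂ) (β T))) ∧
      ∀ (F : Type) [Field F] [Finite F] (r : ℕ), Nat.card F = Ideal.absNorm v.asIdeal ^ r →
        ((solutions a F).ncard : ℂ) = (Nat.card F - 1) *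
          (∑ i ∈ range (2 * c + 2), (Nat.card F : ℂ) ^ i -
            ∑ T ∈ (univ : Finset (Fin (2 * c + 3))).powersetCard c,
              (((Ideal.absNorm v.asIdeal : ℂ) ^ c * β T) ^ r +
                ((Ideal.absNorm v.asIdeal : ℂ) ^ c * (starRingEnd ℂ) (β T)) ^ r))

/-- **The decomposition.** -/
theorem decomp {c : ℕ} (hc : c ≤ 2) {a : Fin (2 * c + 3) → ℤ} {B : ℕ}
    (h3 : ∀ v : HeightOneSpectrum (𝓞 K), (B : 𝓞 K) ∉ v.asIdeal → (3 : 𝓞 K) ∉ v.asIdeal)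
    (ha : ∀ (v : HeightOneSpectrum (𝓞 K)) (i), (B : 𝓞 K) ∉ v.asIdeal →
      ((a i : ℤ) : 𝓞 K) ∉ v.asIdeal) : Decomposition K B c a := by
  intro v hv
  obtain ⟨β, hβ⟩ := exists_bv v (h3 v hv)
  have hDt : ∀ T, ((Dt a T : ℤ) : 𝓞 K) ∉ v.asIdeal := by
    intro T h
    have h1 : ((Dt a T : ℤ) : 𝓞 K) = (∏ i, ((a i : ℤ) : 𝓞 K)) * ∏ i ∈ T, ((a i : ℤ) : 𝓞 K) := by
      unfold Dt
      push_cast
      rfl
    rw [h1] at h
    have hpr := v.isPrime
    rcases hpr.mem_or_mem h with h | h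
    · obtain ⟨i, -, hi⟩ := (Ideal.IsPrime.prod_mem_iff).1 h
      exact ha v i hv hi
    · obtain ⟨i, -, hi⟩ := (Ideal.IsPrime.prod_mem_iff).1 h
      exact ha v i hv hi
  have hq : (Pool.Agent.R432.V.qv v : ℂ) = ((Ideal.absNorm v.asIdeal : ℕ) : ℂ) := by
    exact_mod_cast congrArg (fun n : ℕ => (n : ℂ)) (Pool.Agent.R432.V.qv_eq v)
  refine ⟨fun T => β ((Dt a T : ℤ) : 𝓞 K), fun T => ?_, fun F _ _ r hF => ?_⟩
  · obtain ⟨h1, h2⟩ := hβ.2.1 _ (hDt T)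
    refine ⟨h2.trans hq, ?_⟩
    have h4 : (Nat.card {P : (𝓞 K ⧸ v.asIdeal) × (𝓞 K ⧸ v.asIdeal) //
        P.2 ^ 2 + ((Dt a T : ℤ) : 𝓞 K ⧸ v.asIdeal) * P.2 = P.1 ^ 3} : ℂ) =
        (Pool.Agent.R432.V.cn ((Dt a T : ℤ) : 𝓞 K) v : ℂ) := by
      unfold Pool.Agent.R432.V.cn
      rw [map_intCast]
    rw [h4, ← hq]
    linear_combination -h1
  · have h1 := hβ.2.2 c hc a (fun i => ha v i hv) F r hF
    rw [eigs_sum] at h1
    exact h1

/-- **The theorem for one `D`.** -/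
theorem one_BK {M : Finset ℕ} (hM : ∀ l ∈ M, l.Prime ∧ l % 9 = 1) {D : ℕ} (hC : Cl M D)
    (hA : ∀ t : {l : ℕ // l ∈ M} → ZMod 3, NoSplit (twN D M t)) {S : Finset ℕ} (hSM : S ⊆ M)
    (r : ℕ → K) (hr : ∀ l ∈ S, r l ^ 3 = (l : K))
    (hgen : ∀ F : Subfield K, (∀ l ∈ S, r l ∈ F) → F = ⊤) {c : ℕ} (hc : c ≤ 2)
    {a : Fin (2 * c + 3) → ℤ} (ha : Fam M D a) :
    Decomposition K (3 * D * ∏ l ∈ M, l) c a ∧
      ∀ T : Finset (Fin (2 * c + 3)), BZ (ED ((Dt a T : ℤ) : K)) := by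
  have hD0 : D ≠ 0 := hC.1.ne_zero
  have hM' : ∀ l ∈ M, l.Prime := fun l hl => (hM l hl).1
  set B : ℕ := 3 * D * ∏ l ∈ M, l with hBdef
  have hBD : D ∣ B := ⟨3 * ∏ l ∈ M, l, by rw [hBdef]; ring⟩
  have hB3 : 3 ∣ B := ⟨D * ∏ l ∈ M, l, by rw [hBdef]; ring⟩
  have hBM : ∀ l ∈ M, l ∣ B := fun l hl =>
    (Finset.dvd_prod_of_mem (fun l : ℕ => l) hl).trans (Dvd.intro_left _ rfl)
  have hpreS : ∀ E : ℕ, (E = D ∨ E = D ^ 2) → ∀ t : {l : ℕ // l ∈ M} → ZMod 3,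
      (∀ l, l.1 ∈ S → t l = 0) → Pre (twN E M t) S := by
    intro E hE t ht
    refine ⟨fun l hl => hM' l (hSM hl), fun l hl => (hM l (hSM hl)).2, fun l hl h => ?_⟩
    have hlp := hM' l (hSM hl)
    unfold twN at h
    rcases (Nat.Prime.dvd_mul hlp).1 h with h | h
    · have h1 : l ∣ D := by
        rcases hE with rfl | rfl
        · exact h
        · exact hlp.dvd_of_dvd_pow h
      exact hC.2.2 l (hSM hl) h1
    · obtain ⟨i, -, hi⟩ := (hlp.prime.dvd_finsetProd_iff _).1 h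
      have h1 := hlp.dvd_of_dvd_pow hi
      have h2 := (Nat.prime_dvd_prime_iff_eq hlp (hM' i.1 i.2)).1 h1
      rw [ht i (h2 ▸ hl), ZMod.val_zero, pow_zero] at hi
      exact hlp.one_lt.ne' (Nat.dvd_one.1 hi)
  have hall : ∀ E : ℕ, (E = D ∨ E = D ^ 2) → AllG M E := by
    rintro E (rfl | rfl)
    · exact allG_one hM hC hA
    · exact allG_two hM hC hA
  refine ⟨decomp hc (fun v hv h => hv ?_) (fun v i hv h => hv ?_), fun T => ?_⟩
  · obtain ⟨k, hk⟩ := hB3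
    rw [hk]
    push_cast
    exact Ideal.mul_mem_right _ _ h
  · obtain ⟨j, h0, h1⟩ := ha
    have h2 : (((a i).natAbs : ℕ) : 𝓞 K) ∈ v.asIdeal := by
      rcases Int.natAbs_eq (a i) with h3 | h3
      · rw [h3] at h
        simpa using h
      · rw [h3] at h
        simpa using h
    refine rad_mem (fun p hp hd => ?_) h2
    by_cases hi : i = j
    · rw [hi] at hd
      rcases h0 with h0 | h0
      · rw [h0] at hd
        exact hd.trans hBD
      · rw [h0] at hd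
        exact (hp.dvd_of_dvd_pow hd).trans hBD
    · exact hBM p ((h1 i hi).2 p hp (Int.natCast_dvd.2 hd))
  · obtain ⟨E, w, z, hE, hw, hz, h1⟩ := fam_abs ha hD0 T
    obtain ⟨t, ht, h2⟩ := tw_K hM' hr hw hz h1
    obtain ⟨-, h3, h4, -⟩ := all_good (hall E hE t).1 (hpreS E hE t ht) (fun s => by
      rw [tw_tw hSM t ht s]
      exact (hall E hE _).2) r hr hgen
    exact bz_tw h2 (hall E hE t).1.1.1 h3 h4

end field

end Pool.Agent.N883.DQ
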