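import Mathlib
import Pool.Agent.N883.C.Ext

/-!
# The number of zeros of the diagonal cubic forms in `2 c + 3` variables, `c ≤ 2`, over finite fields
-/

set_option autoImplicit false
set_option linter.unusedSectionVars false
set_option linter.style.haveILetI false

namespace Pool.Agent.N883.DQ

open Finset
open Pool.Agent.N883.C

/-- the affine cone over the diagonal cubic hypersurface -/
def Cn {m : ℕ} {k : Type} [Field k] (a : Fin m → k) : Type :=
  {x : Fin m → k // ∑ i, a i * x i ^ 3 = 0}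

/-- the twists that occur in the cohomology -/
def Dt {m : ℕ} {k : Type} [CommRing k] (a : Fin m → k) (T : Finset (Fin m)) : k :=
  (∏ i, a i) * ∏ i ∈ T, a i

lemma Dt_map {m : ℕ} {k E : Type} [CommRing k] [CommRing E] (f : k →+* E) (a : Fin m → k)
    (T : Finset (Fin m)) : Dt (fun i => f (a i)) T = f (Dt a T) := by
  simp [Dt, map_mul, map_prod]

section
variable {k : Type} [Field k] [Fintype k] {χ : MulChar k ℂ}

lemma Dt_ne {m : ℕ} {a : Fin m → k} (ha : ∀ i, a i ≠ 0) (T : Finset (Fin m)) : Dt a T ≠ 0 :=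
  mul_ne_zero (prod_ne_zero_iff.2 fun i _ => ha i) (prod_ne_zero_iff.2 fun i _ => ha i)

open scoped Classical in
lemma sum_pow (h : χ ^ 3 = 1) (h1 : χ ≠ 1) (j : ℕ) :
    ∑ t ∈ (univ : Finset k).erase 0, χ t ^ j = if 3 ∣ j then (Fintype.card k - 1 : ℂ) else 0 := by
  have key : ∀ t ∈ (univ : Finset k).erase 0, χ t ^ j = χ t ^ (j % 3) := by
    intro t ht
    conv_lhs => rw [← Nat.div_add_mod j 3, pow_add, pow_mul, chi3 h (ne_of_mem_erase ht), one_pow,
      one_mul]
  rw [Finset.sum_congr rfl key]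
  have h2 : j % 3 < 3 := Nat.mod_lt _ (by norm_num)
  by_cases h3 : 3 ∣ j
  · rw [if_pos h3, Nat.mod_eq_zero_of_dvd h3]
    have := sum_three h h1 1 0 0
    simpa using this
  · rw [if_neg h3]
    have h4 : j % 3 = 1 ∨ j % 3 = 2 := by omega
    rcases h4 with h4 | h4
    · rw [h4]
      have := sum_three h h1 0 1 0
      simpa using this
    · rw [h4]
      have := sum_three h h1 0 0 1
      simpa using this

lemma filt {c : ℕ} (hc : c ≤ 2) (T : Finset (Fin (2 * c + 3))) :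
    3 ∣ (2 * c + 3) + T.card ↔ (T.card = c ∨ T.card = c + 3) := by
  have h1 : T.card ≤ 2 * c + 3 := by
    have := T.card_le_univ
    simpa using this
  omega

/-- the character sum -/
lemma big_sum {c : ℕ} (hc : c ≤ 2) (h : χ ^ 3 = 1) (h1 : χ ≠ 1) (a : Fin (2 * c + 3) → k)
    (g g' : ℂ) : (letI := Classical.decEq k; ∑ t ∈ (univ : Finset k).erase 0,
      ∏ i, (χ (t * a i) ^ 2 * g + χ (t * a i) * g')) =
      (Fintype.card k - 1) * (∑ T ∈ (univ : Finset (Fin (2 * c + 3))).powersetCard c,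
          χ (Dt a T) * g ^ c * g' ^ (c + 3) +
        ∑ T ∈ (univ : Finset (Fin (2 * c + 3))).powersetCard (c + 3),
          χ (Dt a T) * g ^ (c + 3) * g' ^ c) := by
  classical
  have e1 : ∀ t : k, ∏ i, (χ (t * a i) ^ 2 * g + χ (t * a i) * g') =
      ∑ T : Finset (Fin (2 * c + 3)), (χ (Dt a T) * g ^ T.card * g' ^ (2 * c + 3 - T.card)) *
        χ t ^ (2 * c + 3 + T.card) := by
    intro t
    have e2 : ∀ i, χ (t * a i) ^ 2 * g + χ (t * a i) * g' =
        (χ t * χ (a i)) * (χ t * χ (a i) * g + g') := by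
      intro i
      rw [map_mul]
      ring
    rw [Finset.prod_congr rfl fun i _ => e2 i, Finset.prod_mul_distrib, Finset.prod_add,
      Finset.powerset_univ, Finset.mul_sum]
    refine Finset.sum_congr rfl fun T _ => ?_
    have e3 : (univ \ T).card = 2 * c + 3 - T.card := by
      rw [Finset.card_sdiff_of_subset (Finset.subset_univ T), Finset.card_univ, Fintype.card_fin]
    rw [Finset.prod_const, e3, Finset.prod_mul_distrib, Finset.prod_mul_distrib,
      Finset.prod_mul_distrib, Finset.prod_const, Finset.prod_const, Finset.prod_const,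
      Finset.card_univ, Fintype.card_fin]
    unfold Dt
    rw [map_mul, map_prod, map_prod, pow_add]
    ring
  rw [Finset.sum_congr rfl fun t _ => e1 t, Finset.sum_comm]
  have e4 : ∀ T : Finset (Fin (2 * c + 3)), ∑ t ∈ (univ : Finset k).erase 0,
      (χ (Dt a T) * g ^ T.card * g' ^ (2 * c + 3 - T.card)) * χ t ^ (2 * c + 3 + T.card) =
      if T.card = c ∨ T.card = c + 3 then
        (Fintype.card k - 1) * (χ (Dt a T) * g ^ T.card * g' ^ (2 * c + 3 - T.card)) else 0 := by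
    intro T
    rw [← Finset.mul_sum, sum_pow h h1]
    simp only [filt hc T]
    split_ifs
    · ring
    · ring
  rw [Finset.sum_congr rfl fun T _ => e4 T, ← Finset.sum_filter, Finset.filter_or,
    Finset.sum_union (by
      rw [Finset.disjoint_filter]
      intro T _ h1 h2
      omega)]
  rw [mul_add, Finset.mul_sum, Finset.mul_sum]
  have e5 : ∀ j : ℕ, (univ : Finset (Finset (Fin (2 * c + 3)))).filter (fun T => T.card = j) =
      (univ : Finset (Fin (2 * c + 3))).powersetCard j := by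
    intro j
    ext T
    simp [Finset.mem_powersetCard]
  rw [e5, e5]
  congr 1
  · refine Finset.sum_congr rfl fun T hT => ?_
    have h2 : T.card = c := (Finset.mem_powersetCard.1 hT).2
    rw [h2, show 2 * c + 3 - c = c + 3 by omega]
  · refine Finset.sum_congr rfl fun T hT => ?_
    have h2 : T.card = c + 3 := (Finset.mem_powersetCard.1 hT).2
    rw [h2, show 2 * c + 3 - (c + 3) = c by omega]

/-- complements -/
lemma compl_sum {c : ℕ} (f : Finset (Fin (2 * c + 3)) → ℂ) :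
    ∑ T ∈ (univ : Finset (Fin (2 * c + 3))).powersetCard (c + 3), f T =
      ∑ T ∈ (univ : Finset (Fin (2 * c + 3))).powersetCard c, f Tᶜ := by
  classical
  refine Finset.sum_nbij' (fun T => Tᶜ) (fun T => Tᶜ) ?_ ?_ ?_ ?_ ?_
  · intro T hT
    rw [Finset.mem_powersetCard] at hT ⊢
    refine ⟨Finset.subset_univ _, ?_⟩
    rw [Finset.card_compl, Fintype.card_fin, hT.2]
    omega
  · intro T hT
    rw [Finset.mem_powersetCard] at hT ⊢
    refine ⟨Finset.subset_univ _, ?_⟩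
    rw [Finset.card_compl, Fintype.card_fin, hT.2]
    omega
  · intro T _
    exact compl_compl T
  · intro T _
    exact compl_compl T
  · intro T _
    rw [compl_compl]

lemma chi_compl {m : ℕ} (h : χ ^ 3 = 1) {a : Fin m → k} (ha : ∀ i, a i ≠ 0)
    (T : Finset (Fin m)) : χ (Dt a Tᶜ) = χ (Dt a T) ^ 2 := by
  classical
  have h1 : (∏ i ∈ T, a i) * ∏ i ∈ Tᶜ, a i = ∏ i, a i := Finset.prod_mul_prod_compl T a
  have h2 : χ (Dt a Tᶜ) * χ (Dt a T) = 1 := by
    rw [← map_mul]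
    have h3 : Dt a Tᶜ * Dt a T = (∏ i, a i) ^ 3 := by
      unfold Dt
      rw [pow_succ, pow_two]
      nth_rewrite 5 [← h1]
      ring
    rw [h3, map_pow]
    exact chi3 h (prod_ne_zero_iff.2 fun i _ => ha i)
  have h4 := chi3 h (Dt_ne ha T)
  linear_combination (χ (Dt a T)) ^ 2 * h2 - χ (Dt a Tᶜ) * h4

/-- **The number of the zeros.** -/
theorem card_Cn {c : ℕ} (hc : c ≤ 2) (h : χ ^ 3 = 1) (h1 : χ ≠ 1) {ψ : AddChar k ℂ}
    (hψ : ψ ≠ 1) {a : Fin (2 * c + 3) → k} (ha : ∀ i, a i ≠ 0) :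
    (Nat.card (Cn a) : ℂ) = (Fintype.card k : ℂ) ^ (2 * c + 2) - (Fintype.card k - 1) *
      ∑ T ∈ (univ : Finset (Fin (2 * c + 3))).powersetCard c, ((Fintype.card k : ℂ) ^ c *
        bt χ ψ (Dt a T) + (Fintype.card k : ℂ) ^ c * (starRingEnd ℂ) (bt χ ψ (Dt a T))) := by
  classical
  have h2 := card_diag h h1 hψ a ha
  have h3 := big_sum hc h h1 a (gaussSum χ ψ) (gaussSum χ⁻¹ ψ)
  have h4 : (∑ t ∈ (univ : Finset k).erase 0, ∏ i, (χ (t * a i) ^ 2 * gaussSum χ ψ +
      χ (t * a i) * gaussSum χ⁻¹ ψ)) = (letI := Classical.decEq k;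
      ∑ t ∈ (univ : Finset k).erase 0, ∏ i, (χ (t * a i) ^ 2 * gaussSum χ ψ +
      χ (t * a i) * gaussSum χ⁻¹ ψ)) := by
    congr!
  have hq := q_ne (k := k)
  have hg := gauss_mul h h1 hψ
  apply mul_left_cancel₀ hq
  have h5 : (Nat.card (Cn a) : ℂ) = (Nat.card {x : Fin (2 * c + 3) → k //
      ∑ i, a i * x i ^ 3 = 0} : ℂ) := rfl
  rw [h5, h2]
  rw [← h4] at h3
  have h6 : (∑ t ∈ (univ : Finset k).erase 0, ∏ i, (χ (t * a i) ^ 2 * gaussSum χ ψ +
      χ (t * a i) * gaussSum χ⁻¹ ψ)) = (Fintype.card k - 1) *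
      (∑ T ∈ (univ : Finset (Fin (2 * c + 3))).powersetCard c,
        -(Fintype.card k : ℂ) * ((Fintype.card k : ℂ) ^ c *
        bt χ ψ (Dt a T) + (Fintype.card k : ℂ) ^ c * (starRingEnd ℂ) (bt χ ψ (Dt a T)))) := by
    refine h3.trans ?_
    rw [compl_sum, ← Finset.sum_add_distrib]
    congr 1
    refine Finset.sum_congr rfl fun T _ => ?_
    rw [chi_compl h ha, bt_conj h (Dt_ne ha T)]
    unfold bt
    have e1 : gaussSum χ ψ ^ c * gaussSum χ⁻¹ ψ ^ (c + 3) =
        (Fintype.card k : ℂ) ^ c * gaussSum χ⁻¹ ψ ^ 3 := by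
      rw [← hg, mul_pow]
      ring
    have e2 : gaussSum χ ψ ^ (c + 3) * gaussSum χ⁻¹ ψ ^ c =
        (Fintype.card k : ℂ) ^ c * gaussSum χ ψ ^ 3 := by
      rw [← hg, mul_pow]
      ring
    field_simp
    linear_combination (χ (Dt a T)) * e1 + (χ (Dt a T)) ^ 2 * e2
  have h7 : ∀ X : ℂ, X = ∑ t ∈ (univ : Finset k).erase 0, ∏ i, (χ (t * a i) ^ 2 * gaussSum χ ψ +
      χ (t * a i) * gaussSum χ⁻¹ ψ) → (Fintype.card k : ℂ) ^ (2 * c + 3) + X =
      Fintype.card k * ((Fintype.card k : ℂ) ^ (2 * c + 2) - (Fintype.card k - 1) *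
      ∑ T ∈ (univ : Finset (Fin (2 * c + 3))).powersetCard c, ((Fintype.card k : ℂ) ^ c *
        bt χ ψ (Dt a T) + (Fintype.card k : ℂ) ^ c * (starRingEnd ℂ) (bt χ ψ (Dt a T)))) := by
    intro X hX
    rw [hX, h6, ← Finset.mul_sum]
    ring
  exact h7 _ (by congr!)

end

section ext
open Pool.Agent.Y145.KS (psi psi_apply psi_ne_one)

variable {k : Type} [Field k] [Fintype k] {E : Type} [Field E] [Finite E] [Algebra k E]

lemma bt_E [Fintype E] (χ : MulChar k ℂ) {ψ : AddChar k ℂ} (hψ : ψ ≠ 1) (δ : k) :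
    bt (chE χ E) (psi ψ E) (algebraMap k E δ) = bt χ ψ δ ^ Module.finrank k E := by
  haveI : Module.Finite k E := Module.Finite.of_finite
  have hr : 0 < Module.finrank k E := Module.finrank_pos
  have hcard : (Fintype.card E : ℂ) = (Fintype.card k : ℂ) ^ Module.finrank k E := by
    rw [Module.card_eq_pow_finrank (K := k) (V := E)]
    push_cast
    rfl
  unfold bt
  rw [gauss_E χ hψ, chE_algebraMap, hcard]
  set r := Module.finrank k E with hrdef
  set g := gaussSum χ ψ with hgdef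
  set d := χ δ with hddef
  set q := (Fintype.card k : ℂ) with hqdef
  set s := ((-1 : ℂ)) ^ (r - 1) with hs
  have hs2 : s ^ 2 = 1 := sgn_sq r
  have hs1 : s * (-1) ^ r = -1 := sgn_aux hr
  have e0 : (-(d ^ 2 * g ^ 3 / q)) ^ r = (-1) ^ r * ((d ^ r) ^ 2 * (g ^ r) ^ 3 / q ^ r) := by
    rw [neg_pow (d ^ 2 * g ^ 3 / q), div_pow, mul_pow, ← pow_mul, ← pow_mul, ← pow_mul, ← pow_mul,
      mul_comm 2 r, mul_comm 3 r]
  rw [e0]
  have e1 : -((d ^ r) ^ 2 * (s * g ^ r) ^ 3 / q ^ r) =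
      -s ^ 3 * ((d ^ r) ^ 2 * (g ^ r) ^ 3 / q ^ r) := by ring
  have e2 : -s ^ 3 = (-1) ^ r := by
    linear_combination (-s) * hs2 + (-1) ^ r * hs2 - s * hs1
  rw [e1, e2]

theorem Cn_E {c : ℕ} (hc : c ≤ 2) {χ : MulChar k ℂ} (h : χ ^ 3 = 1) (h1 : χ ≠ 1)
    {ψ : AddChar k ℂ} (hψ : ψ ≠ 1) {a : Fin (2 * c + 3) → k} (ha : ∀ i, a i ≠ 0) :
    (Nat.card (Cn fun i => algebraMap k E (a i)) : ℂ) =
      (Nat.card E : ℂ) ^ (2 * c + 2) - (Nat.card E - 1) *
      ∑ T ∈ (univ : Finset (Fin (2 * c + 3))).powersetCard c,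
        (((Fintype.card k : ℂ) ^ c * bt χ ψ (Dt a T)) ^ Module.finrank k E +
        ((Fintype.card k : ℂ) ^ c * (starRingEnd ℂ) (bt χ ψ (Dt a T))) ^ Module.finrank k E) := by
  haveI : Module.Finite k E := Module.Finite.of_finite
  let _ : Fintype E := Fintype.ofFinite E
  have ha' : ∀ i, algebraMap k E (a i) ≠ 0 := fun i => by
    rw [Ne, map_eq_zero_iff _ (algebraMap k E).injective]
    exact ha i
  have hcard : (Fintype.card E : ℂ) = (Fintype.card k : ℂ) ^ Module.finrank k E := by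
    rw [Module.card_eq_pow_finrank (K := k) (V := E)]
    push_cast
    rfl
  rw [card_Cn hc (chE_pow3 (E := E) h) (chE_ne_one (E := E) h1) (psi_ne_one hψ E) ha',
    Nat.card_eq_fintype_card (α := E)]
  congr 2
  refine Finset.sum_congr rfl fun T _ => ?_
  rw [Dt_map, bt_E χ hψ, hcard, map_pow, mul_pow, mul_pow, ← pow_mul, ← pow_mul, mul_comm c]

end ext

end Pool.Agent.N883.DQ
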