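import Mathlib
import Pool.Agent.N883.DQ.Dg

/-!
# Diagonal cubic forms over the finite fields with `q = 2` modulo `3` elements and their extensions
-/

set_option autoImplicit false
set_option linter.unusedSectionVars false
set_option linter.style.haveILetI false

namespace Pool.Agent.N883.DQ

open Finset
open Pool.Agent.N883.C
open Pool.Agent.Y145.KS (psi psi_apply psi_ne_one)

section
variable {k : Type} [Field k] [Fintype k]

/-- cubing is bijective -/
lemma cube_bij (hq : Fintype.card k % 3 = 2) : Function.Bijective fun x : k => x ^ 3 := by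
  have hinj : Function.Injective fun x : k => x ^ 3 := by
    intro x y hxy
    have hxy : x ^ 3 = y ^ 3 := hxy
    obtain ⟨j, hj⟩ : ∃ j, Fintype.card k = 3 * j + 2 := ⟨Fintype.card k / 3, by omega⟩
    have h1 : ∀ z : k, z ^ (2 * Fintype.card k - 1) = z := by
      intro z
      have e : 2 * Fintype.card k - 1 = Fintype.card k + (Fintype.card k - 1) := by
        have := Fintype.card_pos (α := k)
        omega
      rw [e, pow_add, FiniteField.pow_card]
      rcases eq_or_ne z 0 with h | h
      · rw [h, zero_mul]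
      · rw [FiniteField.pow_card_sub_one_eq_one z h, mul_one]
    have e : 2 * Fintype.card k - 1 = 3 * (2 * j + 1) := by omega
    rw [← h1 x, ← h1 y, e, pow_mul, pow_mul, hxy]
  exact Finite.injective_iff_bijective.1 hinj

/-- the zeros of a linear form -/
lemma lin_card {m : ℕ} {a : Fin (m + 1) → k} (ha : a 0 ≠ 0) :
    Nat.card {x : Fin (m + 1) → k // ∑ i, a i * x i = 0} = Fintype.card k ^ m := by
  have e : {x : Fin (m + 1) → k // ∑ i, a i * x i = 0} ≃ (Fin m → k) :=
    { toFun := fun x i => x.1 i.succ
      invFun := fun y => ⟨Fin.cons (-(∑ i : Fin m, a i.succ * y i) / a 0) y, by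
        rw [Fin.sum_univ_succ]
        simp only [Fin.cons_zero, Fin.cons_succ]
        field_simp
        ring⟩
      left_inv := fun x => by
        apply Subtype.ext
        funext i
        refine Fin.cases ?_ (fun j => ?_) i
        · have h := x.2
          rw [Fin.sum_univ_succ] at h
          simp only [Fin.cons_zero]
          field_simp
          linear_combination -h
        · simp only [Fin.cons_succ]
      right_inv := fun y => by
        funext i
        simp only [Fin.cons_succ] }
  rw [Nat.card_congr e, Nat.card_fun, Nat.card_eq_fintype_card, Nat.card_eq_fintype_card,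
    Fintype.card_fin]

lemma card_two {m : ℕ} (hq : Fintype.card k % 3 = 2) {a : Fin (m + 1) → k} (ha : ∀ i, a i ≠ 0) :
    Nat.card (Cn a) = Fintype.card k ^ m := by
  rw [← lin_card (ha 0)]
  refine Nat.card_congr (Equiv.subtypeEquiv (Equiv.arrowCongr (Equiv.refl _)
    (Equiv.ofBijective _ (cube_bij hq))) fun x => ?_)
  simp [Equiv.arrowCongr]

lemma aff_two (hq : Fintype.card k % 3 = 2) (δ : k) :
    Nat.card {p : k × k // p.2 ^ 2 + δ * p.2 = p.1 ^ 3} = Fintype.card k := by
  have h : Function.Bijective fun p : {p : k × k // p.2 ^ 2 + δ * p.2 = p.1 ^ 3} => p.1.2 := by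
    constructor
    · rintro ⟨⟨x, y⟩, h1⟩ ⟨⟨x', y'⟩, h2⟩ h3
      simp only at h1 h2 h3
      subst h3
      have : x = x' := (cube_bij hq).1 (show x ^ 3 = x' ^ 3 by rw [← h1, ← h2])
      subst this
      rfl
    · intro y
      obtain ⟨x, hx⟩ := (cube_bij hq).2 (y ^ 2 + δ * y)
      exact ⟨⟨(x, y), hx.symm⟩, rfl⟩
  rw [Nat.card_congr (Equiv.ofBijective _ h), Nat.card_eq_fintype_card]

end

section quad
variable {k : Type} [Field k] [Fintype k] {E : Type} [Field E] [Fintype E] [Algebra k E]

open scoped Classical in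
/-- the number of the elements with trace zero -/
lemma ker_tr {ψ : AddChar k ℂ} (hψ : ψ ≠ 1) (h2 : Module.finrank k E = 2) :
    ((univ.filter fun x : E => Algebra.trace k E x = 0).card : ℂ) = Fintype.card k := by
  haveI : Module.Finite k E := Module.Finite.of_finite
  have hcard : (Fintype.card E : ℂ) = (Fintype.card k : ℂ) ^ 2 := by
    rw [Module.card_eq_pow_finrank (K := k) (V := E), h2]
    push_cast
    rfl
  have hq := q_ne (k := k)
  have h3 : ∑ x : E, ∑ a : k, ψ (a * Algebra.trace k E x) =
      (Fintype.card k : ℂ) * ((univ.filter fun x : E => Algebra.trace k E x = 0).card : ℂ) := by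
    rw [Finset.sum_congr rfl fun x _ => sum_psi hψ (Algebra.trace k E x), ← Finset.sum_filter,
      Finset.sum_const, nsmul_eq_mul, mul_comm]
  have h4 : ∑ x : E, ∑ a : k, ψ (a * Algebra.trace k E x) = (Fintype.card E : ℂ) := by
    rw [Finset.sum_comm, ← Finset.add_sum_erase _ _ (Finset.mem_univ (0 : k))]
    have h5 : ∀ a ∈ (univ : Finset k).erase 0, ∑ x : E, ψ (a * Algebra.trace k E x) = 0 := by
      intro a ha
      have h6 := sum_psi (psi_ne_one hψ E) (algebraMap k E a)
      rw [if_neg (by
        rw [map_eq_zero_iff _ (algebraMap k E).injective]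
        exact ne_of_mem_erase ha)] at h6
      rw [← h6]
      refine Finset.sum_congr rfl fun x _ => ?_
      rw [psi_apply, mul_comm x, ← Algebra.smul_def, map_smul, smul_eq_mul]
    rw [Finset.sum_eq_zero h5]
    simp
  rw [h4, hcard] at h3
  apply mul_left_cancel₀ hq
  rw [← h3]
  ring

/-- the Gauss sum of a cubic character over the quadratic extension -/
theorem gauss_two (hq : Fintype.card k % 3 = 2) {ψ : AddChar k ℂ} (hψ : ψ ≠ 1)
    (h2 : Module.finrank k E = 2) {χ : MulChar E ℂ} (h : χ ^ 3 = 1) (h1 : χ ≠ 1) :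
    gaussSum χ (psi ψ E) = Fintype.card k := by
  classical
  haveI : Module.Finite k E := Module.Finite.of_finite
  have hk : ∀ a : k, a ≠ 0 → χ (algebraMap k E a) = 1 := by
    intro a ha
    obtain ⟨b, hb⟩ := (cube_bij hq).2 a
    have hb : b ^ 3 = a := hb
    have hb0 : b ≠ 0 := by
      rintro rfl
      apply ha
      rw [← hb]
      simp
    rw [← hb, map_pow, map_pow]
    exact chi3 h (by rwa [Ne, map_eq_zero_iff _ (algebraMap k E).injective])
  -- the average over the lines
  have e1 : ∀ a ∈ (univ : Finset k).erase 0, ∑ x : E, χ x * ψ (a * Algebra.trace k E x) =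
      gaussSum χ (psi ψ E) := by
    intro a ha
    have ha0 : a ≠ 0 := ne_of_mem_erase ha
    have ha' : algebraMap k E a ≠ 0 := by
      rwa [Ne, map_eq_zero_iff _ (algebraMap k E).injective]
    unfold gaussSum
    rw [← Function.Bijective.sum_comp (mulLeft_bijective₀ _ ha')
      (fun x => χ x * psi ψ E x)]
    refine Finset.sum_congr rfl fun x _ => ?_
    rw [psi_apply, map_mul χ, hk a ha0, one_mul, ← Algebra.smul_def, map_smul, smul_eq_mul]
  have e2 : ∑ a ∈ (univ : Finset k).erase 0, ∑ x : E, χ x * ψ (a * Algebra.trace k E x) =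
      ((Fintype.card k : ℂ) - 1) * gaussSum χ (psi ψ E) := by
    rw [Finset.sum_congr rfl e1, Finset.sum_const, nsmul_eq_mul, Finset.card_erase_of_mem
      (Finset.mem_univ _), Finset.card_univ, Nat.cast_sub (Fintype.card_pos), Nat.cast_one]
  have e3 : ∀ x : E, ∑ a ∈ (univ : Finset k).erase 0, χ x * ψ (a * Algebra.trace k E x) =
      (if Algebra.trace k E x = 0 then χ x * Fintype.card k else 0) - χ x := by
    intro x
    have h3 := sum_psi hψ (Algebra.trace k E x)
    rw [← Finset.add_sum_erase _ _ (Finset.mem_univ (0 : k))] at h3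
    rw [zero_mul, AddChar.map_zero_eq_one] at h3
    rw [← Finset.mul_sum]
    by_cases h4 : Algebra.trace k E x = 0
    · rw [if_pos h4] at h3 ⊢
      linear_combination χ x * h3
    · rw [if_neg h4] at h3 ⊢
      linear_combination χ x * h3
  -- the elements of trace zero
  have e4 : ∀ x : E, Algebra.trace k E x = 0 → x ≠ 0 → χ x = 1 := by
    intro x hx hx0
    have h3 : x ^ Fintype.card k = -x := by
      have h4 := FiniteField.algebraMap_trace_eq_sum_pow k E x
      rw [h2, hx, map_zero] at h4
      rw [Finset.sum_range_succ, Finset.sum_range_one, pow_zero, pow_one, pow_one,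
        Nat.card_eq_fintype_card] at h4
      linear_combination -h4
    have h4 : χ x ^ Fintype.card k = χ x := by
      rw [← map_pow, h3, ← neg_one_mul, map_mul, chi_neg h, one_mul]
    have h5 : χ x ^ Fintype.card k = χ x ^ 2 := by
      conv_lhs => rw [← Nat.div_add_mod (Fintype.card k) 3, hq, pow_add, pow_mul, chi3 h hx0,
        one_pow, one_mul]
    have h6 : χ x * (χ x - 1) = 0 := by
      linear_combination h4 - h5
    have h7 : χ x ≠ 0 := by
      intro h8
      have := chi3 h hx0
      rw [h8] at this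
      norm_num at this
    exact sub_eq_zero.1 ((mul_eq_zero.1 h6).resolve_left h7)
  have e5 : ∑ x : E, (if Algebra.trace k E x = 0 then χ x * (Fintype.card k : ℂ) else 0) =
      (Fintype.card k : ℂ) * (Fintype.card k - 1) := by
    rw [← Finset.sum_filter, ← ker_tr hψ h2]
    have h0 : (0 : E) ∈ univ.filter fun x : E => Algebra.trace k E x = 0 := by simp
    rw [← Finset.add_sum_erase _ _ h0, MulChar.map_zero, zero_mul, zero_add]
    rw [Finset.sum_congr rfl (g := fun _ => ((univ.filter fun x : E =>
      Algebra.trace k E x = 0).card : ℂ)) (fun x hx => by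
        rw [e4 x (Finset.mem_filter.1 (mem_of_mem_erase hx)).2 (ne_of_mem_erase hx), one_mul]),
      Finset.sum_const, nsmul_eq_mul, Finset.card_erase_of_mem h0, Nat.cast_sub
      (Finset.card_pos.2 ⟨0, h0⟩), Nat.cast_one]
    ring
  rw [Finset.sum_comm, Finset.sum_congr rfl fun x _ => e3 x, Finset.sum_sub_distrib, e5,
    MulChar.sum_eq_zero_of_ne_one h1, sub_zero] at e2
  have h3 : (Fintype.card k : ℂ) - 1 ≠ 0 := by
    have : 1 < Fintype.card k := Fintype.one_lt_card
    have h4 : (Fintype.card k : ℂ) ≠ 1 := by exact_mod_cast this.ne'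
    exact sub_ne_zero.2 h4
  apply mul_left_cancel₀ h3
  rw [← e2]
  ring

/-- the eigenvalue over the quadratic extension -/
theorem bt_two (hq : Fintype.card k % 3 = 2) {ψ : AddChar k ℂ} (hψ : ψ ≠ 1)
    (h2 : Module.finrank k E = 2) {χ : MulChar E ℂ} (h : χ ^ 3 = 1) (h1 : χ ≠ 1) {δ : k}
    (hδ : δ ≠ 0) : bt χ (psi ψ E) (algebraMap k E δ) = -(Fintype.card k : ℂ) := by
  haveI : Module.Finite k E := Module.Finite.of_finite
  have hcard : (Fintype.card E : ℂ) = (Fintype.card k : ℂ) ^ 2 := by
    rw [Module.card_eq_pow_finrank (K := k) (V := E), h2]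
    push_cast
    rfl
  have hq0 := q_ne (k := k)
  obtain ⟨b, hb⟩ := (cube_bij hq).2 δ
  have hb : b ^ 3 = δ := hb
  have hb0 : b ≠ 0 := by
    rintro rfl
    apply hδ
    rw [← hb]
    simp
  unfold bt
  rw [gauss_two hq hψ h2 h h1, hcard, ← hb, map_pow, map_pow,
    chi3 h (by rwa [Ne, map_eq_zero_iff _ (algebraMap k E).injective])]
  field_simp

end quad

/-- a quadratic extension, contained in the given one of even degree -/
lemma exists_quad (k : Type) [Field k] [Fintype k] (E : Type) [Field E] [Finite E]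
    [Algebra k E] (h : Even (Module.finrank k E)) :
    ∃ (k' : Type) (_ : Field k') (_ : Fintype k') (_ : Algebra k k') (_ : Algebra k' E),
      IsScalarTower k k' E ∧ Module.finrank k k' = 2 := by
  obtain ⟨p, hp⟩ := CharP.exists k
  haveI : Fact p.Prime := ⟨CharP.char_is_prime k p⟩
  have h2 : Module.finrank k (FiniteField.Extension k p 2) = 2 :=
    FiniteField.finrank_extension k p 2
  obtain ⟨f⟩ := FiniteField.nonempty_algHom_of_finrank_dvd (F := k)
    (K := FiniteField.Extension k p 2) (L := E) (by
      rw [h2]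
      exact h.two_dvd)
  letI : Algebra (FiniteField.Extension k p 2) E := f.toRingHom.toAlgebra
  refine ⟨FiniteField.Extension k p 2, inferInstance, Fintype.ofFinite _, inferInstance,
    inferInstance, ?_, h2⟩
  refine IsScalarTower.of_algebraMap_eq fun x => ?_
  exact (f.commutes x).symm

/-- **The number of the zeros in the extensions.** -/
theorem Cn_two {k : Type} [Field k] [Fintype k] (hq : Fintype.card k % 3 = 2) {c : ℕ} (hc : c ≤ 2)
    {a : Fin (2 * c + 3) → k} (ha : ∀ i, a i ≠ 0) {β : ℂ} (hβ : β ^ 2 = -(Fintype.card k : ℂ))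
    (hβ' : (starRingEnd ℂ) β = -β)
    (E : Type) [Field E] [Finite E] [Algebra k E] :
    (Nat.card (Cn fun i => algebraMap k E (a i)) : ℂ) =
      (Nat.card E : ℂ) ^ (2 * c + 2) - (Nat.card E - 1) *
      ∑ T ∈ (univ : Finset (Fin (2 * c + 3))).powersetCard c,
        (((Fintype.card k : ℂ) ^ c * β) ^ Module.finrank k E +
        ((Fintype.card k : ℂ) ^ c * (starRingEnd ℂ) β) ^ Module.finrank k E) := by
  haveI : Module.Finite k E := Module.Finite.of_finite
  let _ : Fintype E := Fintype.ofFinite E
  have ha' : ∀ i, algebraMap k E (a i) ≠ 0 := fun i => by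
    rw [Ne, map_eq_zero_iff _ (algebraMap k E).injective]
    exact ha i
  rcases Nat.even_or_odd (Module.finrank k E) with h | h
  · obtain ⟨k', _, _, _, _, hst, h2⟩ := exists_quad k E h
    haveI : Module.Finite k k' := Module.Finite.of_finite
    haveI : Module.Finite k' E := Module.Finite.of_finite
    have hcard : Fintype.card k' = Fintype.card k ^ 2 := by
      rw [Module.card_eq_pow_finrank (K := k) (V := k'), h2]
    obtain ⟨χ, hχ, hχ1⟩ := exists_cubic (k := k') (by
      rw [hcard]
      have h3 : (Fintype.card k ^ 2) % 3 = 1 := by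
        rw [Nat.pow_mod, hq]
      have h4 : 0 < Fintype.card k ^ 2 := pow_pos Fintype.card_pos 2
      omega)
    obtain ⟨ψ, hψ⟩ : ∃ ψ : AddChar k ℂ, ψ ≠ 1 := by
      obtain ⟨ψ, hψ⟩ := (AddChar.exists_apply_ne_zero (a := (1 : k))).2 one_ne_zero
      refine ⟨ψ, ?_⟩
      rintro rfl
      simp at hψ
    have h3 := Cn_E (E := E) hc hχ hχ1 (psi_ne_one hψ k') (a := fun i => algebraMap k k' (a i))
      (fun i => by
        rw [Ne, map_eq_zero_iff _ (algebraMap k k').injective]
        exact ha i)
    simp only [← IsScalarTower.algebraMap_apply k k' E] at h3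
    rw [h3]
    congr 2
    refine Finset.sum_congr rfl fun T _ => ?_
    have h4 : Dt (fun i => algebraMap k k' (a i)) T = algebraMap k k' (Dt a T) :=
      Dt_map (algebraMap k k') a T
    rw [h4, bt_two hq hψ h2 hχ hχ1 (Dt_ne ha T), map_neg, map_natCast, hβ', hcard]
    have h5 : Module.finrank k E = 2 * Module.finrank k' E := by
      rw [← h2, Module.finrank_mul_finrank]
    have h6 : (((Fintype.card k ^ 2 : ℕ) : ℂ) ^ c * -(Fintype.card k : ℂ)) =
        ((Fintype.card k : ℂ) ^ c * β) ^ 2 := by
      rw [mul_pow, hβ]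
      push_cast
      ring
    have h7 : ((Fintype.card k : ℂ) ^ c * -β) ^ 2 = ((Fintype.card k : ℂ) ^ c * β) ^ 2 := by ring
    rw [h5, pow_mul, pow_mul, h7, h6]
  · have hcard : Fintype.card E = Fintype.card k ^ Module.finrank k E :=
      Module.card_eq_pow_finrank
    have hE : Fintype.card E % 3 = 2 := by
      obtain ⟨j, hj⟩ := h
      rw [hcard, hj, Nat.pow_mod, hq, pow_succ, pow_mul, Nat.mul_mod, Nat.pow_mod]
      norm_num
    rw [card_two hE ha', hβ', Nat.card_eq_fintype_card]
    have e : ((Fintype.card k : ℂ) ^ c * -β) ^ Module.finrank k E =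
        -((Fintype.card k : ℂ) ^ c * β) ^ Module.finrank k E := by
      rw [mul_neg, h.neg_pow]
    rw [e]
    simp

end Pool.Agent.N883.DQ
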