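import Mathlib
import Pool.Agent.N883.DQ.Two

/-!
# The Frobenius eigenvalues of the diagonal cubic hypersurfaces over finite fields
-/

set_option autoImplicit false
set_option linter.unusedSectionVars false
set_option linter.unusedVariables false
set_option linter.style.haveILetI false

namespace Pool.Agent.N883.DQ

open Finset
open Pool.Agent.N883.C

/-- the properties of the eigenvalues `β δ` of the curves `y² + δ y = x³` -/
def IsBeta {k : Type} [Field k] [Fintype k] (β : k → ℂ) : Prop :=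
  (∀ δ z : k, z ≠ 0 → β (δ * z ^ 3) = β δ) ∧ (∀ δ : k, δ ≠ 0 →
    β δ * (starRingEnd ℂ) (β δ) = Fintype.card k ∧
    (Nat.card {p : k × k // p.2 ^ 2 + δ * p.2 = p.1 ^ 3} : ℂ) =
      Fintype.card k - β δ - (starRingEnd ℂ) (β δ)) ∧
  ∀ c : ℕ, c ≤ 2 → ∀ a : Fin (2 * c + 3) → k, (∀ i, a i ≠ 0) →
    ∀ (E : Type) [Field E] [Finite E] [Algebra k E],
      (Nat.card (Cn fun i => algebraMap k E (a i)) : ℂ) =
        (Nat.card E : ℂ) ^ (2 * c + 2) - (Nat.card E - 1) *
        ∑ T ∈ (univ : Finset (Fin (2 * c + 3))).powersetCard c,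
          (((Fintype.card k : ℂ) ^ c * β (Dt a T)) ^ Module.finrank k E +
          ((Fintype.card k : ℂ) ^ c * (starRingEnd ℂ) (β (Dt a T))) ^ Module.finrank k E)

theorem exists_beta (k : Type) [Field k] [Fintype k] (h3 : (3 : k) ≠ 0) :
    ∃ β : k → ℂ, IsBeta β := by
  have hq0 : Fintype.card k % 3 ≠ 0 := by
    intro h
    obtain ⟨p, hp⟩ := CharP.exists k
    have hpp : p.Prime := CharP.char_is_prime k p
    obtain ⟨n, -, hn⟩ := FiniteField.card k p
    rw [hn] at h
    have h4 : 3 ∣ p ^ (n : ℕ) := Nat.dvd_of_mod_eq_zero h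
    have h5 := (Nat.prime_dvd_prime_iff_eq Nat.prime_three hpp).1
      (Nat.prime_three.dvd_of_dvd_pow h4)
    apply h3
    have h6 : ((3 : ℕ) : k) = 0 := by
      rw [CharP.cast_eq_zero_iff k p, h5]
    exact_mod_cast h6
  have hpos := Fintype.card_pos (α := k)
  have hcases : Fintype.card k % 3 = 1 ∨ Fintype.card k % 3 = 2 := by omega
  rcases hcases with hq | hq
  · obtain ⟨χ, h, h1⟩ := exists_cubic (k := k) (by omega)
    obtain ⟨ψ, hψ⟩ : ∃ ψ : AddChar k ℂ, ψ ≠ 1 := by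
      obtain ⟨ψ, hψ⟩ := (AddChar.exists_apply_ne_zero (a := (1 : k))).2 one_ne_zero
      refine ⟨ψ, ?_⟩
      rintro rfl
      simp at hψ
    exact ⟨bt χ ψ, fun δ z hz => bt_cube h δ hz, fun δ hδ => ⟨bt_norm h h1 hψ hδ,
      card_aff h h1 hψ hδ⟩, fun c hc a ha E _ _ _ => Cn_E hc h h1 hψ ha⟩
  · have hs : ((Real.sqrt (Fintype.card k) : ℝ) : ℂ) ^ 2 = Fintype.card k := by
      have h4 : (Real.sqrt (Fintype.card k)) ^ 2 = (Fintype.card k : ℝ) :=
        Real.sq_sqrt (Nat.cast_nonneg _)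
      exact_mod_cast congrArg (fun x : ℝ => (x : ℂ)) h4
    set s : ℂ := ((Real.sqrt (Fintype.card k) : ℝ) : ℂ) with hsdef
    have hI : Complex.I ^ 2 = -1 := Complex.I_sq
    have hc1 : (starRingEnd ℂ) (Complex.I * s) = -(Complex.I * s) := by
      rw [map_mul, Complex.conj_I, hsdef, Complex.conj_ofReal]
      ring
    have h2 : (Complex.I * s) ^ 2 = -(Fintype.card k : ℂ) := by
      rw [mul_pow, hI, hs]
      ring
    refine ⟨fun _ => Complex.I * s, fun _ _ _ => rfl, fun δ hδ => ⟨?_, ?_⟩,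
      fun c hc a ha E _ _ _ => Cn_two hq hc ha h2 hc1 E⟩
    · rw [hc1]
      linear_combination -h2
    · rw [hc1, aff_two hq]
      ring

end Pool.Agent.N883.DQ
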