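import Pool.Agent.R432.V3
import Pool.Agent.N883.DQ.Loc

/-!
# The `L`-functions of the diagonal cubic threefolds and fivefolds over number fields
-/

set_option autoImplicit false
set_option linter.unusedSectionVars false
set_option linter.unusedVariables false
set_option linter.style.haveILetI false

open scoped Classical

namespace Pool.Agent.N883.DQ

open Finset NumberField IsDedekindDomain
open Pool.Agent.R432.V (qv cn ef qv_eq Tr ef_eq tr_norm)
open Pool.Agent.H921R2.TatePole (nm two_le_nm)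

/-- The solutions, not all zero, of `∑ a i x i ^ 3 = 0` in the field `F`. -/
def solutions {m : ℕ} (a : Fin m → ℤ) (F : Type) [Field F] : Set (Fin m → F) :=
  {x | x ≠ 0 ∧ ∑ i, (a i : F) * x i ^ 3 = 0}

/-- the eigenvalues -/
def IsFrobenius (n : ℕ) (a : Fin (n + 2) → ℤ) (q : ℕ) (A : Multiset ℂ) : Prop :=
  ∀ (F : Type) [Field F] [Finite F] (r : ℕ), Nat.card F = q ^ r →
    ((solutions a F).ncard : ℂ) = (Nat.card F - 1) *
      (∑ i ∈ Finset.range (n + 1), (Nat.card F : ℂ) ^ i - (A.map (fun α => α ^ r)).sum)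

/-- the `L`-function without the factors at the places dividing `B` -/
def IsLFunction (K : Type) [Field K] [NumberField K] (n b : ℕ) (a : Fin (n + 2) → ℤ) (B : ℕ)
    (L : ℂ → ℂ) : Prop :=
  Differentiable ℂ L ∧ ∃ A : HeightOneSpectrum (𝓞 K) → Multiset ℂ,
    (∀ v, (B : 𝓞 K) ∉ v.asIdeal → IsFrobenius n a (Ideal.absNorm v.asIdeal) (A v) ∧
      (A v).card = b ∧ ∀ α ∈ A v, ‖α‖ ^ 2 = (Ideal.absNorm v.asIdeal : ℝ) ^ n) ∧
    ∀ s : ℂ, (n : ℝ) / 2 + 1 < s.re →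
      HasProd (fun v : {v : HeightOneSpectrum (𝓞 K) // (B : 𝓞 K) ∉ v.asIdeal} =>
        ((A v.1).map (fun α => (1 - α * (Ideal.absNorm v.1.asIdeal : ℂ) ^ (-s))⁻¹)).prod) (L s)

lemma cone_ncard {m : ℕ} (a : Fin m → ℤ) {F : Type} [Field F] [Finite F] :
    ((solutions a F).ncard : ℂ) = (Nat.card (Cn fun i => (a i : F)) : ℂ) - 1 := by
  have h1 : Nat.card (Cn fun i => (a i : F)) =
      ({x : Fin m → F | ∑ i, (a i : F) * x i ^ 3 = 0}).ncard := by
    rw [← Nat.card_coe_set_eq]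
    rfl
  have h2 : {x : Fin m → F | ∑ i, (a i : F) * x i ^ 3 = 0} = insert 0 (solutions a F) := by
    ext x
    simp only [Set.mem_ofPred_eq, Set.mem_insert_iff, solutions]
    constructor
    · intro h
      by_cases hx : x = 0
      · exact Or.inl hx
      · exact Or.inr ⟨hx, h⟩
    · rintro (rfl | h)
      · simp
      · exact h.2
  rw [h1, h2, Set.ncard_insert_of_notMem (by simp [solutions]) (Set.toFinite _)]
  push_cast
  ring

/-- the multiset of the eigenvalues -/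
noncomputable def eigs (c : ℕ) (a : Fin (2 * c + 3) → ℤ) (q : ℕ) (β : ℤ → ℂ) : Multiset ℂ :=
  ((univ : Finset (Fin (2 * c + 3))).powersetCard c).val.bind fun T =>
    {(q : ℂ) ^ c * β (Dt a T), (q : ℂ) ^ c * (starRingEnd ℂ) (β (Dt a T))}

lemma eigs_card (c : ℕ) (a : Fin (2 * c + 3) → ℤ) (q : ℕ) (β : ℤ → ℂ) :
    (eigs c a q β).card = 2 * (2 * c + 3).choose c := by
  unfold eigs
  rw [Multiset.card_bind]
  simp only [Function.comp_def, Multiset.insert_eq_cons, Multiset.card_cons,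
    Multiset.card_singleton]
  rw [Multiset.map_const', Multiset.sum_replicate, Finset.card_val, Finset.card_powersetCard,
    Finset.card_univ, Fintype.card_fin, smul_eq_mul, mul_comm]

lemma eigs_sum (c : ℕ) (a : Fin (2 * c + 3) → ℤ) (q : ℕ) (β : ℤ → ℂ) (r : ℕ) :
    ((eigs c a q β).map (fun α => α ^ r)).sum =
      ∑ T ∈ (univ : Finset (Fin (2 * c + 3))).powersetCard c,
        (((q : ℂ) ^ c * β (Dt a T)) ^ r + ((q : ℂ) ^ c * (starRingEnd ℂ) (β (Dt a T))) ^ r) := by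
  unfold eigs
  rw [Multiset.map_bind, Multiset.sum_bind]
  refine congrArg Multiset.sum (Multiset.map_congr rfl fun T _ => ?_)
  simp

lemma eigs_prod (c : ℕ) (a : Fin (2 * c + 3) → ℤ) (q : ℕ) (β : ℤ → ℂ) (X : ℂ) :
    ((eigs c a q β).map (fun α => (1 - α * X)⁻¹)).prod =
      ∏ T ∈ (univ : Finset (Fin (2 * c + 3))).powersetCard c,
        ((1 - (q : ℂ) ^ c * β (Dt a T) * X)⁻¹ *
        (1 - (q : ℂ) ^ c * (starRingEnd ℂ) (β (Dt a T)) * X)⁻¹) := by
  unfold eigs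
  rw [Multiset.map_bind, Multiset.prod_bind]
  refine congrArg Multiset.prod (Multiset.map_congr rfl fun T _ => ?_)
  simp

lemma eigs_mem {c : ℕ} {a : Fin (2 * c + 3) → ℤ} {q : ℕ} {β : ℤ → ℂ} {α : ℂ}
    (h : α ∈ eigs c a q β) : ∃ T, α = (q : ℂ) ^ c * β (Dt a T) ∨
      α = (q : ℂ) ^ c * (starRingEnd ℂ) (β (Dt a T)) := by
  unfold eigs at h
  obtain ⟨T, -, hT⟩ := Multiset.mem_bind.1 h
  refine ⟨T, ?_⟩
  simpa using hT

/-- the fields with `q ^ r` elements are extensions of degree `r` -/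
lemma exists_alg (k : Type) [Field k] [Fintype k] (F : Type) [Field F] [Finite F] (r : ℕ)
    (h : Nat.card F = Fintype.card k ^ r) : ∃ _ : Algebra k F, Module.finrank k F = r := by
  obtain ⟨p, hp⟩ := CharP.exists k
  have hpp : p.Prime := CharP.char_is_prime k p
  haveI : Fact p.Prime := ⟨hpp⟩
  obtain ⟨j, -, hj⟩ := FiniteField.card k p
  haveI : CharP F p := by
    obtain ⟨q, hq⟩ := CharP.exists F
    let _ : Fintype F := Fintype.ofFinite F
    have hqp : q.Prime := CharP.char_is_prime F q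
    obtain ⟨i, -, hi⟩ := FiniteField.card F q
    rw [Nat.card_eq_fintype_card, hi, hj, ← pow_mul] at h
    have h1 : q ∣ p ^ ((j : ℕ) * r) := by
      rw [← h]
      exact dvd_pow_self q i.ne_zero
    have h2 := (Nat.prime_dvd_prime_iff_eq hqp hpp).1 (hqp.dvd_of_dvd_pow h1)
    rwa [← h2]
  letI : Algebra (ZMod p) k := ZMod.algebra k p
  letI : Algebra (ZMod p) F := ZMod.algebra F p
  have h1 : Module.finrank (ZMod p) k = j := by
    have h5 := Module.natCard_eq_pow_finrank (K := ZMod p) (V := k)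
    rw [Nat.card_eq_fintype_card, hj, Nat.card_zmod] at h5
    exact (Nat.pow_right_injective hpp.two_le h5).symm
  have h2 : Module.finrank (ZMod p) F = j * r := by
    have h5 := Module.natCard_eq_pow_finrank (K := ZMod p) (V := F)
    rw [h, hj, Nat.card_zmod, ← pow_mul] at h5
    exact (Nat.pow_right_injective hpp.two_le h5).symm
  obtain ⟨f⟩ := FiniteField.nonempty_algHom_of_finrank_dvd (F := ZMod p) (K := k) (L := F) (by
    rw [h1, h2]
    exact Dvd.intro _ rfl)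
  letI alg : Algebra k F := f.toRingHom.toAlgebra
  haveI : Module.Finite k F := Module.Finite.of_finite
  refine ⟨alg, ?_⟩
  have h5 := Module.natCard_eq_pow_finrank (K := k) (V := F)
  rw [h, Nat.card_eq_fintype_card] at h5
  exact (Nat.pow_right_injective Fintype.one_lt_card h5).symm

/-- the eigenvalues -/
theorem frob {k : Type} [Field k] [Fintype k] {β : k → ℂ} (hβ : IsBeta β) {c : ℕ} (hc : c ≤ 2)
    {a : Fin (2 * c + 3) → ℤ} (ha : ∀ i, ((a i : ℤ) : k) ≠ 0) :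
    IsFrobenius (2 * c + 1) a (Fintype.card k)
      (eigs c a (Fintype.card k) fun δ => β ((δ : ℤ) : k)) := by
  intro F _ _ r hF
  obtain ⟨_, hr⟩ := exists_alg k F r hF
  have h1 := hβ.2.2 c hc (fun i => ((a i : ℤ) : k)) ha F
  have h2 : (fun i => algebraMap k F ((a i : ℤ) : k)) = fun i => (a i : F) := by
    funext i
    exact map_intCast _ _
  have h3 : ∀ T, Dt (fun i => ((a i : ℤ) : k)) T = ((Dt a T : ℤ) : k) :=
    fun T => Dt_map (Int.castRingHom k) a T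
  simp only [h3, hr] at h1
  rw [h2] at h1
  have h4 := cone_ncard a (F := F)
  rw [h1] at h4
  have hgeom : ((Nat.card F : ℂ) - 1) * ∑ i ∈ Finset.range (2 * c + 1 + 1), (Nat.card F : ℂ) ^ i =
      (Nat.card F : ℂ) ^ (2 * c + 2) - 1 := by
    rw [mul_comm]
    exact geom_sum_mul _ _
  refine h4.trans ?_
  rw [eigs_sum]
  linear_combination -hgeom

lemma sq_of {q : ℕ} {β : ℂ} (h : β * (starRingEnd ℂ) β = q) (c : ℕ) :
    ‖(q : ℂ) ^ c * β‖ ^ 2 = (q : ℝ) ^ (2 * c + 1) := by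
  have h1 : ‖β‖ ^ 2 = (q : ℝ) := by
    rw [Complex.sq_norm]
    rw [Complex.mul_conj] at h
    exact_mod_cast h
  rw [norm_mul, mul_pow, h1, norm_pow, Complex.norm_natCast]
  ring

section places
variable {K : Type} [Field K] [NumberField K]

/-- the eigenvalues at the place `v` -/
def IsBv (v : HeightOneSpectrum (𝓞 K)) (β : 𝓞 K → ℂ) : Prop :=
  (∀ δ z : 𝓞 K, z ∉ v.asIdeal → β (δ * z ^ 3) = β δ) ∧
  (∀ δ : 𝓞 K, δ ∉ v.asIdeal → Tr δ v (β δ)) ∧
  ∀ c : ℕ, c ≤ 2 → ∀ a : Fin (2 * c + 3) → ℤ, (∀ i, ((a i : ℤ) : 𝓞 K) ∉ v.asIdeal) →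
    IsFrobenius (2 * c + 1) a (Ideal.absNorm v.asIdeal)
      (eigs c a (Ideal.absNorm v.asIdeal) fun δ => β ((δ : ℤ) : 𝓞 K))

theorem exists_bv (v : HeightOneSpectrum (𝓞 K)) (h3 : (3 : 𝓞 K) ∉ v.asIdeal) :
    ∃ β : 𝓞 K → ℂ, IsBv v β := by
  have hm : v.asIdeal.IsMaximal := v.isMaximal
  letI : Field (𝓞 K ⧸ v.asIdeal) := Ideal.Quotient.field v.asIdeal
  have hq : Nat.card (𝓞 K ⧸ v.asIdeal) = Ideal.absNorm v.asIdeal := qv_eq v
  have hfin : Finite (𝓞 K ⧸ v.asIdeal) := by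
    refine Nat.finite_of_card_ne_zero ?_
    rw [hq]
    have := two_le_nm v
    have h2 : Ideal.absNorm v.asIdeal = nm v := rfl
    omega
  letI : Fintype (𝓞 K ⧸ v.asIdeal) := Fintype.ofFinite _
  have hcard : Fintype.card (𝓞 K ⧸ v.asIdeal) = Ideal.absNorm v.asIdeal := by
    rw [← Nat.card_eq_fintype_card, hq]
  have hne : ∀ x : 𝓞 K, x ∉ v.asIdeal → Ideal.Quotient.mk v.asIdeal x ≠ 0 := fun x hx => by
    rwa [Ne, Ideal.Quotient.eq_zero_iff_mem]
  obtain ⟨β, hβ⟩ := exists_beta (𝓞 K ⧸ v.asIdeal) (by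
    have := hne 3 h3
    rwa [map_ofNat] at this)
  refine ⟨fun δ => β (Ideal.Quotient.mk v.asIdeal δ), fun δ z hz => ?_, fun δ hδ => ?_,
    fun c hc a ha => ?_⟩
  · show β (Ideal.Quotient.mk v.asIdeal (δ * z ^ 3)) = _
    rw [map_mul, map_pow]
    exact hβ.1 _ _ (hne z hz)
  · obtain ⟨b1, b2⟩ := hβ.2.1 _ (hne δ hδ)
    have h1 : (qv v : ℂ) = Fintype.card (𝓞 K ⧸ v.asIdeal) := by
      rw [hcard]
      exact_mod_cast qv_eq v
    have h2 : (cn δ v : ℂ) = (Nat.card {p : (𝓞 K ⧸ v.asIdeal) × (𝓞 K ⧸ v.asIdeal) //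
        p.2 ^ 2 + Ideal.Quotient.mk v.asIdeal δ * p.2 = p.1 ^ 3} : ℂ) := rfl
    refine ⟨?_, b1.trans h1.symm⟩
    rw [h1, h2, b2]
    ring
  · have h1 : ∀ i, ((a i : ℤ) : 𝓞 K ⧸ v.asIdeal) ≠ 0 := by
      intro i
      have := hne _ (ha i)
      rwa [map_intCast] at this
    have h2 := frob hβ hc h1
    rw [hcard] at h2
    have h3 : (fun δ : ℤ => β (Ideal.Quotient.mk v.asIdeal ((δ : ℤ) : 𝓞 K))) =
        fun δ : ℤ => β ((δ : ℤ) : 𝓞 K ⧸ v.asIdeal) := by
      funext δ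
      rw [map_intCast]
    show IsFrobenius _ _ _ (eigs _ _ _ (fun δ : ℤ => β (Ideal.Quotient.mk v.asIdeal
      ((δ : ℤ) : 𝓞 K))))
    rw [h3]
    exact h2

lemma fin_mem {B : ℕ} (hB : B ≠ 0) :
    {v : HeightOneSpectrum (𝓞 K) | (B : 𝓞 K) ∈ v.asIdeal}.Finite := by
  have h1 : (Ideal.span {(B : 𝓞 K)} : Ideal (𝓞 K)) ≠ 0 := by
    rw [Ne, Ideal.zero_eq_bot, Ideal.span_singleton_eq_bot]
    exact_mod_cast hB
  refine (Ideal.finite_factors h1).subset fun v hv => ?_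
  have hv : (B : 𝓞 K) ∈ v.asIdeal := hv
  exact (Ideal.dvd_span_singleton).2 hv

lemma q_ne (v : HeightOneSpectrum (𝓞 K)) : (qv v : ℂ) ≠ 0 := by
  have h1 := two_le_nm v
  rw [← qv_eq] at h1
  have h2 : qv v ≠ 0 := by omega
  exact_mod_cast h2

lemma fac_ne {v : HeightOneSpectrum (𝓞 K)} {δ : 𝓞 K} {x : ℂ} (hx : Tr δ v x) {s : ℂ}
    (hs : 1 / 2 < s.re) : (1 - x * (qv v : ℂ) ^ (-s)) *
      (1 - (starRingEnd ℂ) x * (qv v : ℂ) ^ (-s)) ≠ 0 := by
  have hq0 : (0 : ℝ) < (qv v : ℝ) := by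
    have h1 := two_le_nm v
    rw [← qv_eq] at h1
    have h2 : 0 < qv v := by omega
    exact_mod_cast h2
  have hq1 : (1 : ℝ) < (qv v : ℝ) := by
    have h1 := two_le_nm v
    rw [← qv_eq] at h1
    exact_mod_cast (by omega : 1 < qv v)
  have hX : ‖(qv v : ℂ) ^ (-s)‖ = (qv v : ℝ) ^ (-s.re) := by
    have h2 : (qv v : ℂ) = ((qv v : ℝ) : ℂ) := by push_cast; rfl
    rw [h2, Complex.norm_cpow_eq_rpow_re_of_pos hq0, Complex.neg_re]
  have key : ∀ y : ℂ, ‖y‖ = (qv v : ℝ) ^ (1 / 2 : ℝ) → 1 - y * (qv v : ℂ) ^ (-s) ≠ 0 := by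
    intro y hy h0
    have h1 : y * (qv v : ℂ) ^ (-s) = 1 := by linear_combination -h0
    have h5 := congrArg norm h1
    rw [norm_mul, hy, hX, ← Real.rpow_add hq0, norm_one] at h5
    have h6 := Real.rpow_lt_one_of_one_lt_of_neg hq1 (z := 1 / 2 + -s.re) (by linarith)
    linarith
  refine mul_ne_zero (key _ (tr_norm hx)) (key _ ?_)
  rw [RCLike.norm_conj]
  exact tr_norm hx

/-- removing finitely many Euler factors -/
theorem inc {c : 𝓞 K} {B₁ B : ℕ} (hB : B ≠ 0)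
    (hsub : ∀ v : HeightOneSpectrum (𝓞 K), (B₁ : 𝓞 K) ∈ v.asIdeal → (B : 𝓞 K) ∈ v.asIdeal)
    (h3 : ∀ v : HeightOneSpectrum (𝓞 K), (B₁ : 𝓞 K) ∉ v.asIdeal → ∃ x, Tr c v x)
    {G : ℂ → ℂ} (hG : Differentiable ℂ G) (hG1 : G 1 ≠ 0)
    (hp : ∀ s : ℂ, 3 / 2 < s.re → HasProd (fun v : {v : HeightOneSpectrum (𝓞 K) |
      (B₁ : 𝓞 K) ∉ v.asIdeal} => ef c s v.1) (G s)) :
    ∃ H : ℂ → ℂ, Differentiable ℂ H ∧ H 1 ≠ 0 ∧ ∀ s : ℂ, 3 / 2 < s.re →
      HasProd (fun v : {v : HeightOneSpectrum (𝓞 K) // (B : 𝓞 K) ∉ v.asIdeal} => ef c s v.1)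
        (H s) := by
  have hfin := fin_mem (K := K) hB
  have hx : ∀ v : HeightOneSpectrum (𝓞 K), ∃ x : ℂ, (B₁ : 𝓞 K) ∉ v.asIdeal → Tr c v x := by
    intro v
    by_cases h : (B₁ : 𝓞 K) ∉ v.asIdeal
    · obtain ⟨x, hx⟩ := h3 v h
      exact ⟨x, fun _ => hx⟩
    · exact ⟨0, fun h' => absurd h' h⟩
  choose x hx using hx
  -- the inverse of the Euler factor
  let e : HeightOneSpectrum (𝓞 K) → ℂ → ℂ := fun v s =>
    if (B₁ : 𝓞 K) ∉ v.asIdeal then (1 - x v * (qv v : ℂ) ^ (-s)) *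
      (1 - (starRingEnd ℂ) (x v) * (qv v : ℂ) ^ (-s)) else 1
  have he : ∀ v s, 1 / 2 < s.re → e v s ≠ 0 := by
    intro v s hs
    by_cases h : (B₁ : 𝓞 K) ∉ v.asIdeal
    · simp only [e, if_pos h]
      exact fac_ne (hx v h) hs
    · simp only [e, if_neg h]
      exact one_ne_zero
  have hed : ∀ v, Differentiable ℂ (e v) := by
    intro v
    by_cases h : (B₁ : 𝓞 K) ∉ v.asIdeal
    · have h1 : e v = fun s => (1 - x v * (qv v : ℂ) ^ (-s)) *
          (1 - (starRingEnd ℂ) (x v) * (qv v : ℂ) ^ (-s)) := by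
        funext s
        simp only [e, if_pos h]
      rw [h1]
      have h2 : Differentiable ℂ (fun s : ℂ => (qv v : ℂ) ^ (-s)) := by
        intro s
        exact DifferentiableAt.const_cpow (by fun_prop) (Or.inl (q_ne v))
      exact ((differentiable_const _).sub ((differentiable_const _).mul h2)).mul
        ((differentiable_const _).sub ((differentiable_const _).mul h2))
    · have h1 : e v = fun _ => 1 := by
        funext s
        simp only [e, if_neg h]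
      rw [h1]
      exact differentiable_const _
  refine ⟨fun s => G s * ∏ v ∈ hfin.toFinset, e v s, ?_, ?_, fun s hs => ?_⟩
  · exact hG.mul (Differentiable.fun_finsetProd fun v _ => hed v)
  · exact mul_ne_zero hG1 (Finset.prod_ne_zero_iff.2 fun v _ => he v 1 (by norm_num))
  · have h1 := hp s hs
    rw [← Function.comp_def (f := fun v => ef c s v), hasProd_subtype_iff_mulIndicator] at h1
    have h2 : HasProd (fun v : HeightOneSpectrum (𝓞 K) => if (B : 𝓞 K) ∈ v.asIdeal then e v s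
        else 1) (∏ v ∈ hfin.toFinset, if (B : 𝓞 K) ∈ v.asIdeal then e v s else 1) := by
      refine hasProd_prod_of_ne_finset_one fun v hv => ?_
      rw [if_neg]
      intro h
      exact hv (hfin.mem_toFinset.2 h)
    have h3 : (∏ v ∈ hfin.toFinset, if (B : 𝓞 K) ∈ v.asIdeal then e v s else 1) =
        ∏ v ∈ hfin.toFinset, e v s :=
      Finset.prod_congr rfl fun p hp => if_pos (hfin.mem_toFinset.1 hp)
    rw [h3] at h2
    have h4 : HasProd (fun v : {v : HeightOneSpectrum (𝓞 K) | (B : 𝓞 K) ∉ v.asIdeal} =>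
        ef c s v.1) (G s * ∏ v ∈ hfin.toFinset, e v s) := by
      rw [← Function.comp_def (f := fun v => ef c s v), hasProd_subtype_iff_mulIndicator]
      refine (h1.mul h2).congr_fun fun v => ?_
      by_cases hv : (B : 𝓞 K) ∈ v.asIdeal
      · rw [if_pos hv, Set.mulIndicator_of_notMem (by simpa using hv)]
        by_cases hv1 : (B₁ : 𝓞 K) ∈ v.asIdeal
        · rw [Set.mulIndicator_of_notMem (by simpa using hv1)]
          simp only [e, hv1, not_true_eq_false, if_false, mul_one]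
        · rw [Set.mulIndicator_of_mem (by simpa using hv1), ef_eq (hx v hv1)]
          have h5 : e v s = (1 - x v * (qv v : ℂ) ^ (-s)) *
              (1 - (starRingEnd ℂ) (x v) * (qv v : ℂ) ^ (-s)) := by
            simp only [e, if_pos hv1]
          have h6 := he v s (by linarith)
          rw [h5] at h6 ⊢
          exact (inv_mul_cancel₀ h6).symm
      · rw [if_neg hv, Set.mulIndicator_of_mem (by simpa using hv),
          Set.mulIndicator_of_mem (by
            have : (B₁ : 𝓞 K) ∉ v.asIdeal := fun h => hv (hsub v h)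
            simpa using this), mul_one]
    exact h4

/-- `δ` is the product of `N` and a cube -/
def IsTwK (K : Type) [Field K] [NumberField K] (δ : ℤ) (N : ℕ) : Prop :=
  ∃ z : 𝓞 K, z ≠ 0 ∧ ((δ : ℤ) : 𝓞 K) = (N : 𝓞 K) * z ^ 3

/-- **The `L`-function.** -/
theorem main_LK {c : ℕ} (hc : c ≤ 2) {a : Fin (2 * c + 3) → ℤ} {B : ℕ}
    (h3 : ∀ v : HeightOneSpectrum (𝓞 K), (B : 𝓞 K) ∉ v.asIdeal → (3 : 𝓞 K) ∉ v.asIdeal)
    (ha : ∀ (v : HeightOneSpectrum (𝓞 K)) (i), (B : 𝓞 K) ∉ v.asIdeal →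
      ((a i : ℤ) : 𝓞 K) ∉ v.asIdeal)
    (N : Finset (Fin (2 * c + 3)) → ℕ) (hN : ∀ T, T.card = c → IsTwK K (Dt a T) (N T))
    (hG : ∀ T : Finset (Fin (2 * c + 3)), T.card = c → ∃ G : ℂ → ℂ, Differentiable ℂ G ∧
      G 1 ≠ 0 ∧ ∀ s : ℂ, 3 / 2 < s.re →
        HasProd (fun v : {v : HeightOneSpectrum (𝓞 K) // (B : 𝓞 K) ∉ v.asIdeal} =>
          ef ((N T : ℕ) : 𝓞 K) s v.1) (G s)) :
    ∃ L : ℂ → ℂ, IsLFunction K (2 * c + 1) (2 * (2 * c + 3).choose c) a B L ∧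
      L (c + 1) ≠ 0 := by
  have hG' : ∀ T : Finset (Fin (2 * c + 3)), ∃ G : ℂ → ℂ, T.card = c → (Differentiable ℂ G ∧
      G 1 ≠ 0 ∧ ∀ s : ℂ, 3 / 2 < s.re →
        HasProd (fun v : {v : HeightOneSpectrum (𝓞 K) // (B : 𝓞 K) ∉ v.asIdeal} =>
          ef ((N T : ℕ) : 𝓞 K) s v.1) (G s)) := by
    intro T
    by_cases hT : T.card = c
    · obtain ⟨G, h⟩ := hG T hT
      exact ⟨G, fun _ => h⟩
    · exact ⟨0, fun h => absurd h hT⟩
  choose G hG using hG'
  have hB : ∀ v : HeightOneSpectrum (𝓞 K), ∃ β : 𝓞 K → ℂ, (B : 𝓞 K) ∉ v.asIdeal →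
      IsBv v β := by
    intro v
    by_cases h : (B : 𝓞 K) ∉ v.asIdeal
    · obtain ⟨β, hβ⟩ := exists_bv v (h3 v h)
      exact ⟨β, fun _ => hβ⟩
    · exact ⟨0, fun h' => absurd h' h⟩
  choose β hβ using hB
  have hT : ∀ T ∈ (univ : Finset (Fin (2 * c + 3))).powersetCard c, T.card = c :=
    fun T hT => (Finset.mem_powersetCard.1 hT).2
  have hsub : Differentiable ℂ (fun s : ℂ => s - (c : ℂ)) := differentiable_id.sub_const _
  have hDt : ∀ (v : HeightOneSpectrum (𝓞 K)), (B : 𝓞 K) ∉ v.asIdeal →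
      ∀ T, ((Dt a T : ℤ) : 𝓞 K) ∉ v.asIdeal := by
    intro v hv T h
    have h1 : ((Dt a T : ℤ) : 𝓞 K) = (∏ i, ((a i : ℤ) : 𝓞 K)) * ∏ i ∈ T, ((a i : ℤ) : 𝓞 K) := by
      unfold Dt
      push_cast
      rfl
    rw [h1] at h
    have hpr := v.isPrime
    rcases hpr.mem_or_mem h with h | h
    · obtain ⟨i, -, hi⟩ := (Ideal.IsPrime.prod_mem_iff).1 h
      exact ha v i hv hi
    · obtain ⟨i, -, hi⟩ := (Ideal.IsPrime.prod_mem_iff).1 h
      exact ha v i hv hi
  refine ⟨fun s => ∏ T ∈ (univ : Finset (Fin (2 * c + 3))).powersetCard c, G T (s - c),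
    ⟨?_, fun v => eigs c a (Ideal.absNorm v.asIdeal) fun δ => β v ((δ : ℤ) : 𝓞 K), ?_, ?_⟩, ?_⟩
  · exact Differentiable.fun_finsetProd fun T h => (hG T (hT T h)).1.comp hsub
  · intro v hv
    have hb := hβ v hv
    refine ⟨hb.2.2 c hc a (fun i => ha v i hv), eigs_card _ _ _ _, fun α hα => ?_⟩
    obtain ⟨T, hT'⟩ := eigs_mem hα
    have h2 := (hb.2.1 _ (hDt v hv T)).2
    rw [qv_eq] at h2
    have h2' : β v ((Dt a T : ℤ) : 𝓞 K) * (starRingEnd ℂ) (β v ((Dt a T : ℤ) : 𝓞 K)) =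
      ((Ideal.absNorm v.asIdeal : ℕ) : ℂ) := h2
    rcases hT' with rfl | rfl
    · exact sq_of h2' c
    · refine sq_of ?_ c
      rw [Complex.conj_conj, mul_comm]
      exact h2'
  · intro s hs
    have hre : 3 / 2 < (s - (c : ℂ)).re := by
      rw [Complex.sub_re, Complex.natCast_re]
      push_cast at hs
      linarith
    have h1 : HasProd (fun v : {v : HeightOneSpectrum (𝓞 K) // (B : 𝓞 K) ∉ v.asIdeal} =>
        ∏ T ∈ (univ : Finset (Fin (2 * c + 3))).powersetCard c,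
          ef ((N T : ℕ) : 𝓞 K) (s - c) v.1)
        (∏ T ∈ (univ : Finset (Fin (2 * c + 3))).powersetCard c, G T (s - c)) :=
      hasProd_prod fun T h => (hG T (hT T h)).2.2 _ hre
    refine h1.congr_fun fun v => ?_
    beta_reduce
    rw [eigs_prod]
    refine Finset.prod_congr rfl fun T hT' => ?_
    have hb := hβ v.1 v.2
    obtain ⟨z, hz, hz'⟩ := hN T (hT T hT')
    have hDn := hDt v.1 v.2 T
    have hNn : ((N T : ℕ) : 𝓞 K) ∉ v.1.asIdeal := by
      intro h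
      apply hDn
      rw [hz']
      exact Ideal.mul_mem_right _ _ h
    have hzn : z ∉ v.1.asIdeal := by
      intro h
      apply hDn
      rw [hz']
      exact Ideal.mul_mem_left _ _ (Ideal.pow_mem_of_mem _ h 3 (by norm_num))
    have e1 : β v.1 ((Dt a T : ℤ) : 𝓞 K) = β v.1 ((N T : ℕ) : 𝓞 K) := by
      rw [hz']
      exact hb.1 _ _ hzn
    have hq : ((qv v.1 : ℕ) : ℂ) = ((Ideal.absNorm v.1.asIdeal : ℕ) : ℂ) := by
      rw [qv_eq]
      rfl
    rw [ef_eq (hb.2.1 _ hNn), e1, ← mul_inv, hq]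
    have h0 : ((Ideal.absNorm v.1.asIdeal : ℕ) : ℂ) ≠ 0 := by
      rw [← hq]
      exact q_ne v.1
    have e2 : ((Ideal.absNorm v.1.asIdeal : ℕ) : ℂ) ^ (-(s - (c : ℂ))) =
        ((Ideal.absNorm v.1.asIdeal : ℕ) : ℂ) ^ c *
          ((Ideal.absNorm v.1.asIdeal : ℕ) : ℂ) ^ (-s) := by
      rw [show -(s - (c : ℂ)) = (c : ℂ) + -s by ring, Complex.cpow_add _ _ h0,
        Complex.cpow_natCast]
    rw [e2]
    congr 1
    ring
  · refine Finset.prod_ne_zero_iff.2 fun T h => ?_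
    have := (hG T (hT T h)).2.1
    simpa using this

end places

end Pool.Agent.N883.DQ
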