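import Mathlib
import Pool.Agent.Y703.CT.Defs

/-!
# The dual of a cube-free number: `a b² ↦ a² b`
-/

set_option autoImplicit false
set_option linter.unusedSectionVars false
set_option linter.unusedVariables false

open scoped Classical

namespace Pool.Agent.N883.DQ

open Finset
open Pool.Agent.Y703.CT (Cls NoSplit Base)

/-- cube-free -/
def CFn (n : ℕ) : Prop := n ≠ 0 ∧ ∀ p : ℕ, n.factorization p ≤ 2

lemma cfn_of {n : ℕ} (h0 : n ≠ 0) (h : ∀ p : ℕ, p.Prime → ¬ p ^ 3 ∣ n) : CFn n := by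
  refine ⟨h0, fun p => ?_⟩
  by_cases hp : p.Prime
  · by_contra h1
    push Not at h1
    exact h p hp ((hp.pow_dvd_iff_le_factorization h0).2 h1)
  · rw [Nat.factorization_eq_zero_of_not_prime n hp]
    omega

lemma cfn_not {n : ℕ} (h : CFn n) {p : ℕ} (hp : p.Prime) : ¬ p ^ 3 ∣ n := by
  intro h1
  have h2 := (hp.pow_dvd_iff_le_factorization h.1).1 h1
  have := h.2 p
  omega

lemma cfn_dvd {m n : ℕ} (h : CFn n) (hd : m ∣ n) : CFn m := by
  have hm : m ≠ 0 := fun h1 => h.1 (by rw [h1] at hd; exact Nat.eq_zero_of_zero_dvd hd)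
  exact ⟨hm, fun p => ((Nat.factorization_le_iff_dvd hm h.1).2 hd p).trans (h.2 p)⟩

/-- the dual -/
noncomputable def sh (n : ℕ) : ℕ := ∏ p ∈ n.primeFactors, p ^ (3 - n.factorization p)

lemma sh_ne (n : ℕ) : sh n ≠ 0 :=
  Finset.prod_ne_zero_iff.2 fun _ hp => pow_ne_zero _ (Nat.prime_of_mem_primeFactors hp).ne_zero

lemma sh_fac {n : ℕ} (h : CFn n) (q : ℕ) :
    (sh n).factorization q = 2 * n.factorization q % 3 := by
  unfold sh
  have hne : ∀ p ∈ n.primeFactors, p ^ (3 - n.factorization p) ≠ 0 := fun p hp =>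
    pow_ne_zero _ (Nat.prime_of_mem_primeFactors hp).ne_zero
  rw [Nat.factorization_prod hne, Finsupp.finsetSum_apply]
  have h1 : ∀ p ∈ n.primeFactors, (p ^ (3 - n.factorization p)).factorization q =
      if p = q then 3 - n.factorization p else 0 := by
    intro p hp
    rw [Nat.factorization_pow, (Nat.prime_of_mem_primeFactors hp).factorization,
      Finsupp.smul_apply, Finsupp.single_apply]
    split_ifs <;> simp
  rw [Finset.sum_congr rfl h1, Finset.sum_ite_eq']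
  have h2 := h.2 q
  by_cases hq : q ∈ n.primeFactors
  · rw [if_pos hq]
    have h3 := Nat.mem_primeFactors.1 hq
    have h4 := (h3.1.dvd_iff_one_le_factorization h.1).1 h3.2.1
    omega
  · rw [if_neg hq]
    have : n.factorization q = 0 := by
      rw [← Finsupp.notMem_support_iff, Nat.support_factorization]
      exact hq
    rw [this]
    rfl

lemma sh_cfn {n : ℕ} (h : CFn n) : CFn (sh n) := by
  refine ⟨sh_ne n, fun p => ?_⟩
  rw [sh_fac h]
  omega

lemma sh_dvd {n : ℕ} (h : CFn n) {p : ℕ} (hp : p.Prime) : p ∣ sh n ↔ p ∣ n := by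
  rw [hp.dvd_iff_one_le_factorization (sh_ne n), hp.dvd_iff_one_le_factorization h.1, sh_fac h]
  have := h.2 p
  omega

lemma sh_sh {n : ℕ} (h : CFn n) : sh (sh n) = n := by
  refine Nat.eq_of_factorization_eq (sh_ne _) h.1 fun p => ?_
  rw [sh_fac (sh_cfn h), sh_fac h]
  have := h.2 p
  omega

lemma sh_eq {n m : ℕ} (h : CFn n) (hm : m ≠ 0)
    (h1 : ∀ p : ℕ, p.Prime → m.factorization p = 2 * n.factorization p % 3) : sh n = m := by
  refine Nat.eq_of_factorization_eq (sh_ne _) hm fun p => ?_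
  rw [sh_fac h]
  by_cases hp : p.Prime
  · exact (h1 p hp).symm
  · rw [Nat.factorization_eq_zero_of_not_prime m hp, Nat.factorization_eq_zero_of_not_prime n hp]

lemma sh_one : sh 1 = 1 := by simp [sh]

lemma sh_mul {m n : ℕ} (hm : CFn m) (hn : CFn n) (h : Nat.Coprime m n) :
    CFn (m * n) ∧ sh (m * n) = sh m * sh n := by
  have hf : ∀ p, (m * n).factorization p = m.factorization p + n.factorization p := by
    intro p
    rw [Nat.factorization_mul hm.1 hn.1, Finsupp.add_apply]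
  have hz : ∀ p, p.Prime → m.factorization p = 0 ∨ n.factorization p = 0 := by
    intro p hp
    by_contra h1
    push Not at h1
    have h2 := (hp.dvd_iff_one_le_factorization hm.1).2 (by omega)
    have h3 := (hp.dvd_iff_one_le_factorization hn.1).2 (by omega)
    exact Nat.not_coprime_of_dvd_of_dvd hp.one_lt h2 h3 h
  have hc : CFn (m * n) := by
    refine ⟨mul_ne_zero hm.1 hn.1, fun p => ?_⟩
    rw [hf]
    have h1 := hm.2 p
    have h2 := hn.2 p
    by_cases hp : p.Prime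
    · rcases hz p hp with h3 | h3 <;> omega
    · rw [Nat.factorization_eq_zero_of_not_prime m hp,
        Nat.factorization_eq_zero_of_not_prime n hp]
      omega
  refine ⟨hc, sh_eq hc (mul_ne_zero (sh_ne _) (sh_ne _)) fun p hp => ?_⟩
  rw [Nat.factorization_mul (sh_ne _) (sh_ne _), Finsupp.add_apply, sh_fac hm, sh_fac hn, hf]
  have h1 := hm.2 p
  have h2 := hn.2 p
  rcases hz p hp with h3 | h3 <;> omega

lemma sh_cop {m n : ℕ} (hm : CFn m) (hn : CFn n) (h : Nat.Coprime m n) :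
    Nat.Coprime (sh m) (sh n) := by
  refine Nat.coprime_of_dvd fun p hp h1 h2 => ?_
  exact Nat.not_coprime_of_dvd_of_dvd hp.one_lt ((sh_dvd hm hp).1 h1) ((sh_dvd hn hp).1 h2) h

/-- the product is a cube -/
lemma sh_cube {n : ℕ} (h : CFn n) : ∃ r : ℕ, sh n * n = r ^ 3 ∧
    ∀ p : ℕ, p.Prime → p ∣ r → p ∣ n := by
  refine ⟨∏ p ∈ n.primeFactors, p, ?_, ?_⟩
  · have h1 : n = ∏ p ∈ n.primeFactors, p ^ n.factorization p := by
      conv_lhs => rw [← Nat.prod_factorization_pow_eq_self h.1]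
      rfl
    unfold sh
    have h2 : (∏ p ∈ n.primeFactors, p ^ (3 - n.factorization p)) * n =
        (∏ p ∈ n.primeFactors, p ^ (3 - n.factorization p)) *
          ∏ p ∈ n.primeFactors, p ^ n.factorization p := congrArg _ h1
    rw [h2, ← Finset.prod_mul_distrib, ← Finset.prod_pow]
    refine Finset.prod_congr rfl fun p _ => ?_
    rw [← pow_add]
    congr 1
    have := h.2 p
    omega
  · intro p hp h1
    obtain ⟨q, hq, h2⟩ := (hp.prime.dvd_finsetProd_iff _).1 h1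
    have h3 := Nat.mem_primeFactors.1 hq
    rw [(Nat.prime_dvd_prime_iff_eq hp h3.1).1 h2]
    exact h3.2.1

lemma base_cfn {N : ℕ} (h : Base N) : CFn N := cfn_of h.1 h.2.2

lemma prod3 (f : ZMod 3 → ℕ) : ∏ c, f c = f 0 * f 1 * f 2 := Fin.prod_univ_three f

lemma c1 : ∀ c : ZMod 3, c ≠ c + 1 := by decide
lemma c2 : ∀ c : ZMod 3, c ≠ c + 2 := by decide

/-- the duality for the criterion -/
theorem nosplit_sh {N : ℕ} (hN : CFn N) (h : NoSplit N) : NoSplit (sh N) := by
  intro d hd hcop hcub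
  have hdv : ∀ c, d c ∣ sh N := fun c => by
    rw [← hd]
    exact Finset.dvd_prod_of_mem _ (mem_univ c)
  have hcf : ∀ c, CFn (d c) := fun c => cfn_dvd (sh_cfn hN) (hdv c)
  have hprod : ∏ c, sh (d c) = N := by
    rw [prod3]
    rw [prod3] at hd
    obtain ⟨h1, h2⟩ := sh_mul (hcf 0) (hcf 1) (hcop 0 1 (by decide))
    have hc2 : Nat.Coprime (d 0 * d 1) (d 2) :=
      Nat.Coprime.mul_left (hcop 0 2 (by decide)) (hcop 1 2 (by decide))
    obtain ⟨h3, h4⟩ := sh_mul h1 (hcf 2) hc2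
    rw [← h2, ← h4, hd, sh_sh hN]
  obtain ⟨c, hc⟩ := h (fun c => sh (d c)) hprod (fun c c' hcc => sh_cop (hcf c) (hcf c')
    (hcop c c' hcc)) (by
    intro c p hp hpd
    have _ : Fact p.Prime := ⟨hp⟩
    have hpd' : p ∣ d c := (sh_dvd (hcf c) hp).1 hpd
    obtain ⟨x, hx⟩ := hcub c p hp hpd'
    obtain ⟨r1, hr1, -⟩ := sh_cube (hcf (c + 1))
    obtain ⟨r2, hr2, -⟩ := sh_cube (hcf (c + 2))
    have hn1 : (d (c + 1) : ZMod p) ≠ 0 := by
      rw [Ne, ZMod.natCast_eq_zero_iff]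
      intro h1
      exact Nat.not_coprime_of_dvd_of_dvd hp.one_lt hpd' h1
        (hcop c (c + 1) (c1 c))
    have hn2 : (d (c + 2) : ZMod p) ≠ 0 := by
      rw [Ne, ZMod.natCast_eq_zero_iff]
      intro h1
      exact Nat.not_coprime_of_dvd_of_dvd hp.one_lt hpd' h1
        (hcop c (c + 2) (c2 c))
    have hx' : (d (c + 1) : ZMod p) * (d (c + 2) : ZMod p) ^ 2 = (x : ZMod p) ^ 3 := by
      have h1 := (ZMod.intCast_zmod_eq_zero_iff_dvd _ p).2 hx
      push_cast at h1
      exact sub_eq_zero.1 h1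
    have hx0 : (x : ZMod p) ≠ 0 := by
      intro h1
      rw [h1] at hx'
      have := mul_ne_zero hn1 (pow_ne_zero 2 hn2)
      rw [hx'] at this
      simp at this
    have e1 : (sh (d (c + 1)) : ZMod p) * (d (c + 1) : ZMod p) = (r1 : ZMod p) ^ 3 := by
      exact_mod_cast congrArg (fun n : ℕ => (n : ZMod p)) hr1
    have e2 : (sh (d (c + 2)) : ZMod p) * (d (c + 2) : ZMod p) = (r2 : ZMod p) ^ 3 := by
      exact_mod_cast congrArg (fun n : ℕ => (n : ZMod p)) hr2
    obtain ⟨y, hy⟩ := ZMod.intCast_surjective ((r1 : ZMod p) * (r2 : ZMod p) ^ 2 / (x : ZMod p))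
    refine ⟨y, (ZMod.intCast_zmod_eq_zero_iff_dvd _ p).1 ?_⟩
    push_cast
    rw [hy, div_pow, sub_eq_zero, eq_div_iff (pow_ne_zero 3 hx0), ← hx']
    calc (sh (d (c + 1)) : ZMod p) * (sh (d (c + 2)) : ZMod p) ^ 2 *
          ((d (c + 1) : ZMod p) * (d (c + 2) : ZMod p) ^ 2) =
        ((sh (d (c + 1)) : ZMod p) * (d (c + 1) : ZMod p)) *
          ((sh (d (c + 2)) : ZMod p) * (d (c + 2) : ZMod p)) ^ 2 := by ring
      _ = _ := by
        rw [e1, e2]
        ring)
  refine ⟨c, fun c' hcc => ?_⟩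
  have h1 : sh (d c') = 1 := hc c' hcc
  rw [← sh_sh (hcf c'), h1, sh_one]

/-- the duality for the class -/
theorem cls_sh {N : ℕ} (h : Cls N) : Cls (sh N) := by
  obtain ⟨hB, h91, h98, q, hq, hq2, hqN, hall⟩ := h
  have hcf := base_cfn hB
  have h3 : ¬ 3 ∣ sh N := fun h' => hB.2.1 ((sh_dvd hcf Nat.prime_three).1 h')
  obtain ⟨r, hr, hr2⟩ := sh_cube hcf
  have hr3 : ¬ 3 ∣ r := fun h' => hB.2.1 (hr2 3 Nat.prime_three h')
  have hr9 : r ^ 3 % 9 = 1 ∨ r ^ 3 % 9 = 8 := by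
    have h1 : r % 9 < 9 := Nat.mod_lt _ (by norm_num)
    have h2 : r ^ 3 % 9 = (r % 9) ^ 3 % 9 := by rw [Nat.pow_mod]
    have h4 : ¬ (r % 9) % 3 = 0 := by omega
    rw [h2]
    generalize r % 9 = t at h1 h4
    interval_cases t <;> simp_all
  have key : ∀ e, (sh N % 9 = e) → (e = 1 ∨ e = 8) → False := by
    intro e he h1
    rw [← hr, Nat.mul_mod, he] at hr9
    have h2 : N % 9 < 9 := Nat.mod_lt _ (by norm_num)
    generalize N % 9 = t at hr9 h2 h91 h98
    rcases h1 with rfl | rfl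
    · omega
    · omega
  refine ⟨⟨sh_ne N, h3, fun p hp => cfn_not (sh_cfn hcf) hp⟩, fun h' => key _ h' (Or.inl rfl),
    fun h' => key _ h' (Or.inr rfl), q, hq, hq2, (sh_dvd hcf hq).2 hqN, fun p hp h1 h2 =>
    hall p hp ((sh_dvd hcf hp).1 h1) h2⟩

end Pool.Agent.N883.DQ
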