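import Pool.Agent.R432.JG.Common
import Pool.Agent.N883.DQ.Sh
import Pool.Agent.N883.DQ.LK

/-!
# The twists that occur in the family
-/

set_option autoImplicit false
set_option linter.unusedSectionVars false
set_option linter.unusedVariables false
set_option linter.style.haveILetI false

open scoped Classical

namespace Pool.Agent.N883.DQ

open Finset NumberField IsDedekindDomain
open Pool.Agent.Y703.CT (Cls NoSplit Base)
open Pool.Agent.R432.JG (twN Cl AG fac_tw pre_of tw_cls Pre all_good)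
open Pool.Agent.R432.C (ED)

/-- one coefficient is `± D` or `± D²`, the others are products of elements of `M` -/
def Fam (M : Finset ℕ) (D : ℕ) {m : ℕ} (a : Fin m → ℤ) : Prop :=
  ∃ j, ((a j).natAbs = D ∨ (a j).natAbs = D ^ 2) ∧
    ∀ i, i ≠ j → a i ≠ 0 ∧ ∀ p : ℕ, p.Prime → (p : ℤ) ∣ a i → p ∈ M

/-- the product of elements of `M` -/
def Smo (M : Finset ℕ) (w : ℕ) : Prop := w ≠ 0 ∧ ∀ p : ℕ, p.Prime → p ∣ w → p ∈ M

lemma natAbs_prod' {ι : Type} (s : Finset ι) (f : ι → ℤ) :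
    (∏ i ∈ s, f i).natAbs = ∏ i ∈ s, (f i).natAbs := map_prod Int.natAbsHom f s

lemma smo_one (M : Finset ℕ) : Smo M 1 := ⟨one_ne_zero, fun p hp h =>
  absurd (Nat.dvd_one.1 h) hp.one_lt.ne'⟩

lemma smo_mul {M : Finset ℕ} {v w : ℕ} (hv : Smo M v) (hw : Smo M w) : Smo M (v * w) :=
  ⟨mul_ne_zero hv.1 hw.1, fun p hp h => by
    rcases (Nat.Prime.dvd_mul hp).1 h with h | h
    · exact hv.2 p hp h
    · exact hw.2 p hp h⟩

lemma smo_prod {M : Finset ℕ} {ι : Type} (s : Finset ι) (f : ι → ℕ) (h : ∀ i ∈ s, Smo M (f i)) :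
    Smo M (∏ i ∈ s, f i) := by
  induction s using Finset.induction_on with
  | empty => exact smo_one M
  | insert a s ha ih =>
    rw [Finset.prod_insert ha]
    exact smo_mul (h a (mem_insert_self a s)) (ih fun i hi => h i (mem_insert_of_mem hi))

lemma smo_eq {M : Finset ℕ} {w : ℕ} (hw : Smo M w) :
    w = ∏ l : {l : ℕ // l ∈ M}, l.1 ^ w.factorization l.1 := by
  have h1 : w = ∏ l ∈ M, l ^ w.factorization l := by
    conv_lhs => rw [← Nat.prod_factorization_pow_eq_self hw.1]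
    refine Finsupp.prod_of_support_subset _ ?_ _ (fun i _ => pow_zero i)
    intro p hp
    rw [Nat.support_factorization] at hp
    have := Nat.mem_primeFactors.1 hp
    exact hw.2 p this.1 this.2.1
  conv_lhs => rw [h1]
  exact (Finset.prod_coe_sort M fun l => l ^ w.factorization l).symm

/-- all the twists of `E` are in the class and have no splitting -/
def AllG (M : Finset ℕ) (E : ℕ) : Prop :=
  ∀ t : {l : ℕ // l ∈ M} → ZMod 3, Cls (twN E M t) ∧ NoSplit (twN E M t)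

lemma neg_val' : ∀ c : ZMod 3, 2 * c.val % 3 = (-c).val := by decide

/-- the dual of the twist -/
lemma sh_tw {M : Finset ℕ} (hM : ∀ l ∈ M, l.Prime) {D : ℕ} (hsq : Squarefree D)
    (hnd : ∀ l ∈ M, ¬ l ∣ D) (t : {l : ℕ // l ∈ M} → ZMod 3) (hcf : CFn (twN D M t)) :
    sh (twN D M t) = twN (D ^ 2) M (fun l => -t l) := by
  have h0 : D ≠ 0 := hsq.ne_zero
  refine sh_eq hcf (mul_ne_zero (pow_ne_zero 2 h0)
    (Finset.prod_ne_zero_iff.2 fun l _ => pow_ne_zero _ (hM l.1 l.2).ne_zero)) fun p hp => ?_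
  rw [fac_tw hM h0, fac_tw hM (pow_ne_zero 2 h0), Nat.factorization_pow, Finsupp.smul_apply,
    smul_eq_mul]
  have h4 := (Nat.squarefree_iff_factorization_le_one h0).1 hsq p
  by_cases h : p ∈ M
  · rw [dif_pos h, dif_pos h, Nat.factorization_eq_zero_of_not_dvd (hnd p h), zero_add,
      mul_zero, zero_add, neg_val']
  · rw [dif_neg h, dif_neg h, add_zero, add_zero]
    omega

lemma allG_one {M : Finset ℕ} (hM : ∀ l ∈ M, l.Prime ∧ l % 9 = 1) {D : ℕ} (hC : Cl M D)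
    (hA : ∀ t : {l : ℕ // l ∈ M} → ZMod 3, NoSplit (twN D M t)) : AllG M D :=
  fun t => ⟨tw_cls hC.2.1 (pre_of hM hC), hA t⟩

lemma allG_two {M : Finset ℕ} (hM : ∀ l ∈ M, l.Prime ∧ l % 9 = 1) {D : ℕ} (hC : Cl M D)
    (hA : ∀ t : {l : ℕ // l ∈ M} → ZMod 3, NoSplit (twN D M t)) : AllG M (D ^ 2) := by
  intro t
  have h1 := allG_one hM hC hA (fun l => -t l)
  have h2 := sh_tw (fun l hl => (hM l hl).1) hC.1 hC.2.2 (fun l => -t l) (base_cfn h1.1.1)
  simp only [neg_neg] at h2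
  rw [← h2]
  exact ⟨cls_sh h1.1, nosplit_sh (base_cfn h1.1.1) h1.2⟩

/-- the numbers that occur -/
lemma fam_abs {M : Finset ℕ} {D : ℕ} {m : ℕ} {a : Fin m → ℤ} (ha : Fam M D a) (hD : D ≠ 0)
    (T : Finset (Fin m)) : ∃ (E : ℕ) (w z : ℕ), (E = D ∨ E = D ^ 2) ∧ Smo M w ∧ z ≠ 0 ∧
      (Dt a T).natAbs = E * w * z ^ 3 := by
  obtain ⟨j, h0, h1⟩ := ha
  have hs : ∀ i, i ≠ j → Smo M (a i).natAbs := fun i hi =>
    ⟨Int.natAbs_ne_zero.2 (h1 i hi).1, fun p hp h => (h1 i hi).2 p hp (Int.natCast_dvd.2 h)⟩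
  have e1 : (∏ i, a i).natAbs = (a j).natAbs * ∏ i ∈ univ.erase j, (a i).natAbs := by
    rw [← Finset.mul_prod_erase _ _ (mem_univ j), Int.natAbs_mul, natAbs_prod']
  have hs1 : Smo M (∏ i ∈ univ.erase j, (a i).natAbs) :=
    smo_prod _ _ fun i hi => hs i (ne_of_mem_erase hi)
  by_cases hT : j ∈ T
  · have e2 : (∏ i ∈ T, a i).natAbs = (a j).natAbs * ∏ i ∈ T.erase j, (a i).natAbs := by
      rw [← Finset.mul_prod_erase _ _ hT, Int.natAbs_mul, natAbs_prod']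
    have hs2 : Smo M (∏ i ∈ T.erase j, (a i).natAbs) :=
      smo_prod _ _ fun i hi => hs i (ne_of_mem_erase hi)
    rcases h0 with h0 | h0
    · refine ⟨D ^ 2, _, 1, Or.inr rfl, smo_mul hs1 hs2, one_ne_zero, ?_⟩
      unfold Dt
      rw [Int.natAbs_mul, e1, e2, h0]
      ring
    · refine ⟨D, _, D, Or.inl rfl, smo_mul hs1 hs2, hD, ?_⟩
      unfold Dt
      rw [Int.natAbs_mul, e1, e2, h0]
      ring
  · have hs2 : Smo M (∏ i ∈ T, (a i).natAbs) :=
      smo_prod _ _ fun i hi => hs i (fun h => hT (h ▸ hi))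
    refine ⟨(a j).natAbs, _, 1, h0, smo_mul hs1 hs2, one_ne_zero, ?_⟩
    unfold Dt
    rw [Int.natAbs_mul, e1, natAbs_prod']
    ring

section field
variable {K : Type} [Field K] [NumberField K]

/-- the twist over `K`, without the primes of `S` -/
theorem tw_K {M S : Finset ℕ} (hM : ∀ l ∈ M, l.Prime) {r : ℕ → K}
    (hr : ∀ l ∈ S, r l ^ 3 = (l : K)) {δ : ℤ} {E w z : ℕ} (hw : Smo M w) (hz : z ≠ 0)
    (h : δ.natAbs = E * w * z ^ 3) :
    ∃ t : {l : ℕ // l ∈ M} → ZMod 3, (∀ l, l.1 ∈ S → t l = 0) ∧ IsTwK K δ (twN E M t) := by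
  have hint : ∀ l : ℕ, ∃ x : 𝓞 K, l ∈ S → x ^ 3 = (l : 𝓞 K) := by
    intro l
    by_cases hl : l ∈ S
    · have h1 : IsIntegral ℤ (r l) := by
        refine IsIntegral.of_pow (n := 3) (by norm_num) ?_
        rw [hr l hl]
        have h2 : IsIntegral ℤ (algebraMap ℤ K (l : ℤ)) := isIntegral_algebraMap
        simpa using h2
      refine ⟨⟨r l, h1⟩, fun _ => ?_⟩
      apply RingOfIntegers.ext
      push_cast
      exact hr l hl
    · exact ⟨0, fun h => absurd h hl⟩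
  choose x hx using hint
  let u : {l : ℕ // l ∈ M} → 𝓞 K := fun l =>
    if l.1 ∈ S then x l.1 ^ w.factorization l.1 else (l.1 : 𝓞 K) ^ (w.factorization l.1 / 3)
  let t : {l : ℕ // l ∈ M} → ZMod 3 := fun l =>
    if l.1 ∈ S then 0 else (w.factorization l.1 : ZMod 3)
  have hu : ∀ l : {l : ℕ // l ∈ M}, (l.1 : 𝓞 K) ^ w.factorization l.1 =
      (l.1 : 𝓞 K) ^ (t l).val * u l ^ 3 := by
    intro l
    by_cases hl : l.1 ∈ S
    · simp only [t, u, if_pos hl, ZMod.val_zero, pow_zero, one_mul]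
      rw [← pow_mul, mul_comm, pow_mul, hx l.1 hl]
    · simp only [t, u, if_neg hl, ZMod.val_natCast]
      rw [← pow_mul, ← pow_add]
      congr 1
      omega
  have hl0 : ∀ l : {l : ℕ // l ∈ M}, (l.1 : 𝓞 K) ≠ 0 := fun l => by
    exact_mod_cast (hM l.1 l.2).ne_zero
  have hu0 : ∀ l, u l ≠ 0 := by
    intro l h0
    have h1 := hu l
    rw [h0] at h1
    simp only [ne_eq, OfNat.ofNat_ne_zero, not_false_eq_true, zero_pow, mul_zero] at h1
    exact pow_ne_zero _ (hl0 l) h1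
  have hE : ((E * w * z ^ 3 : ℕ) : 𝓞 K) = ((twN E M t : ℕ) : 𝓞 K) * ((∏ l, u l) * (z : 𝓞 K)) ^ 3 := by
    have h1 : ((w : ℕ) : 𝓞 K) = ∏ l : {l : ℕ // l ∈ M}, (l.1 : 𝓞 K) ^ w.factorization l.1 := by
      conv_lhs => rw [smo_eq hw]
      push_cast
      rfl
    unfold twN
    push_cast
    rw [h1, Finset.prod_congr rfl fun l _ => hu l, Finset.prod_mul_distrib, Finset.prod_pow]
    ring
  have hne : (∏ l, u l) * (z : 𝓞 K) ≠ 0 := by
    refine mul_ne_zero (Finset.prod_ne_zero_iff.2 fun l _ => hu0 l) ?_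
    exact_mod_cast hz
  refine ⟨t, fun l hl => if_pos hl, ?_⟩
  rcases Int.natAbs_eq δ with h1 | h1
  · refine ⟨(∏ l, u l) * (z : 𝓞 K), hne, ?_⟩
    rw [← hE, h1, h]
    push_cast
    rfl
  · refine ⟨-((∏ l, u l) * (z : 𝓞 K)), neg_ne_zero.2 hne, ?_⟩
    rw [neg_pow, show ((-1 : 𝓞 K)) ^ 3 = -1 by norm_num, h1, h]
    rw [Int.cast_neg, Int.cast_natCast, hE]
    ring

/-- the twists of the twists -/
lemma tw_tw {M S : Finset ℕ} (hSM : S ⊆ M) {E : ℕ} (t : {l : ℕ // l ∈ M} → ZMod 3)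
    (ht : ∀ l, l.1 ∈ S → t l = 0) (s : {l : ℕ // l ∈ S} → ZMod 3) :
    twN (twN E M t) S s = twN E M (fun l => if h : l.1 ∈ S then s ⟨l.1, h⟩ else t l) := by
  unfold twN
  rw [mul_assoc]
  congr 1
  have h1 : ∏ l : {l : ℕ // l ∈ S}, l.1 ^ (s l).val =
      ∏ l : {l : ℕ // l ∈ M}, (if h : l.1 ∈ S then l.1 ^ (s ⟨l.1, h⟩).val else 1) := by
    have h2 := Finset.prod_coe_sort M fun l : ℕ =>
      if h : l ∈ S then l ^ (s ⟨l, h⟩).val else 1
    have h3 := Finset.prod_coe_sort S fun l : ℕ =>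
      if h : l ∈ S then l ^ (s ⟨l, h⟩).val else 1
    rw [h2, ← Finset.prod_subset hSM (f := fun l : ℕ =>
      if h : l ∈ S then l ^ (s ⟨l, h⟩).val else 1) (fun l _ hl => dif_neg hl), ← h3]
    refine Finset.prod_congr rfl fun l _ => ?_
    rw [dif_pos l.2]
  rw [h1, ← Finset.prod_mul_distrib]
  refine Finset.prod_congr rfl fun l _ => ?_
  beta_reduce
  by_cases h : l.1 ∈ S
  · rw [dif_pos h, dif_pos h, ht l h, ZMod.val_zero, pow_zero, one_mul]
  · rw [dif_neg h, dif_neg h, mul_one]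

lemma rad_mem {v : HeightOneSpectrum (𝓞 K)} {m n : ℕ}
    (h : ∀ p : ℕ, p.Prime → p ∣ m → p ∣ n) (hm : (m : 𝓞 K) ∈ v.asIdeal) :
    (n : 𝓞 K) ∈ v.asIdeal := by
  obtain ⟨p, hp, hpv⟩ := Pool.Agent.R432.V.exists_p_below v
  have h1 : p ∣ m := by
    by_contra h2
    have h3 : Nat.Coprime p m := (Nat.Prime.coprime_iff_not_dvd hp).2 h2
    have h4 := Nat.isCoprime_iff_coprime.2 h3
    obtain ⟨x, y, hxy⟩ := h4
    apply v.isPrime.ne_top
    rw [Ideal.eq_top_iff_one]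
    have h5 : (1 : 𝓞 K) = (x : 𝓞 K) * (p : 𝓞 K) + (y : 𝓞 K) * (m : 𝓞 K) := by
      exact_mod_cast (congrArg (fun n : ℤ => (n : 𝓞 K)) hxy).symm
    rw [h5]
    exact Ideal.add_mem _ (Ideal.mul_mem_left _ _ hpv) (Ideal.mul_mem_left _ _ hm)
  obtain ⟨k, hk⟩ := h p hp h1
  rw [hk]
  push_cast
  exact Ideal.mul_mem_right _ _ hpv

/-- finiteness of the group of the twist by a cube -/
theorem fin_K {δ : ℤ} {N : ℕ} (h : IsTwK K δ N) (hN0 : N ≠ 0)
    (hf : Finite (ED ((N : ℕ) : K)).toAffine.Point) : Finite (ED ((δ : ℤ) : K)).toAffine.Point := by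
  obtain ⟨z, hz, hδ⟩ := h
  have hzK : (z : K) ≠ 0 := by
    intro h
    exact hz (RingOfIntegers.ext (by rw [h]; rfl))
  have hNK : ((N : ℕ) : K) ≠ 0 := by exact_mod_cast hN0
  have hδK : ((δ : ℤ) : K) = ((N : ℕ) : K) * (z : K) ^ 3 := by
    have := congrArg (fun x : 𝓞 K => (x : K)) hδ
    push_cast at this
    exact this
  have heqn : ∀ (d x y : K), (ED d).toAffine.Equation x y ↔ y ^ 2 + d * y = x ^ 3 := by
    intro d x y
    rw [WeierstrassCurve.Affine.equation_iff]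
    simp [ED]
  have hdisc : (ED ((N : ℕ) : K)).Δ = -27 * ((N : ℕ) : K) ^ 4 := by
    unfold ED WeierstrassCurve.Δ WeierstrassCurve.b₂ WeierstrassCurve.b₄ WeierstrassCurve.b₆
      WeierstrassCurve.b₈
    ring
  have hmap : ∀ x y : K, (ED ((δ : ℤ) : K)).toAffine.Nonsingular x y →
      (ED ((N : ℕ) : K)).toAffine.Nonsingular (x / z ^ 2) (y / z ^ 3) := by
    intro x y hxy
    have h1 := (heqn _ x y).1 hxy.1
    refine (WeierstrassCurve.Affine.equation_iff_nonsingular_of_Δ_ne_zero ?_).1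
      ((heqn _ _ _).2 ?_)
    · show (ED ((N : ℕ) : K)).Δ ≠ 0
      rw [hdisc]
      exact mul_ne_zero (by norm_num) (pow_ne_zero 4 hNK)
    · rw [hδK] at h1
      field_simp
      linear_combination h1
  refine Finite.of_injective (fun P : (ED ((δ : ℤ) : K)).toAffine.Point =>
    (match P with
      | .zero => .zero
      | .some x y h => .some _ _ (hmap x y h) : (ED ((N : ℕ) : K)).toAffine.Point)) ?_
  intro P Q hPQ
  rcases P with _ | ⟨x, y, h1⟩ <;> rcases Q with _ | ⟨x', y', h2⟩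
  · rfl
  · simp at hPQ
  · simp at hPQ
  · simp only [WeierstrassCurve.Affine.Point.some.injEq] at hPQ
    obtain ⟨g1, g2⟩ := hPQ
    have g1' : x = x' := by
      have h3 := pow_ne_zero 2 hzK
      field_simp at g1
      exact g1
    have g2' : y = y' := by
      field_simp at g2
      exact g2
    subst g1'; subst g2'; rfl

/-- the rank part of the conjecture, with order and rank zero -/
def RankZero (K : Type) [Field K] [NumberField K] (B c : ℕ) (a : Fin (2 * c + 3) → ℤ) : Prop :=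
  (∀ T : Finset (Fin (2 * c + 3)), T.card = c → Finite (ED ((Dt a T : ℤ) : K)).toAffine.Point) ∧
    ∃ L : ℂ → ℂ, IsLFunction K (2 * c + 1) (2 * (2 * c + 3).choose c) a B L ∧ L (c + 1) ≠ 0

/-- **The theorem for one `D`.** -/
theorem one_K {M : Finset ℕ} (hM : ∀ l ∈ M, l.Prime ∧ l % 9 = 1) {D : ℕ} (hC : Cl M D)
    (hA : ∀ t : {l : ℕ // l ∈ M} → ZMod 3, NoSplit (twN D M t)) {S : Finset ℕ} (hSM : S ⊆ M)
    (r : ℕ → K) (hr : ∀ l ∈ S, r l ^ 3 = (l : K))
    (hgen : ∀ F : Subfield K, (∀ l ∈ S, r l ∈ F) → F = ⊤) :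
    Module.finrank ℚ K = 3 ^ S.card ∧ ∀ c : ℕ, c ≤ 2 → ∀ a : Fin (2 * c + 3) → ℤ, Fam M D a →
      RankZero K (3 * D * ∏ l ∈ M, l) c a := by
  have hD0 : D ≠ 0 := hC.1.ne_zero
  have hM' : ∀ l ∈ M, l.Prime := fun l hl => (hM l hl).1
  set B : ℕ := 3 * D * ∏ l ∈ M, l with hBdef
  have hB : B ≠ 0 := mul_ne_zero (mul_ne_zero (by norm_num) hD0)
    (Finset.prod_ne_zero_iff.2 fun l hl => (hM' l hl).ne_zero)
  have hBD : D ∣ B := ⟨3 * ∏ l ∈ M, l, by rw [hBdef]; ring⟩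
  have hB3 : 3 ∣ B := ⟨D * ∏ l ∈ M, l, by rw [hBdef]; ring⟩
  have hBM : ∀ l ∈ M, l ∣ B := fun l hl =>
    (Finset.dvd_prod_of_mem (fun l : ℕ => l) hl).trans (Dvd.intro_left _ rfl)
  have hpreS : ∀ E : ℕ, (E = D ∨ E = D ^ 2) → ∀ t : {l : ℕ // l ∈ M} → ZMod 3,
      (∀ l, l.1 ∈ S → t l = 0) → Pre (twN E M t) S := by
    intro E hE t ht
    refine ⟨fun l hl => hM' l (hSM hl), fun l hl => (hM l (hSM hl)).2, fun l hl h => ?_⟩
    have hlp := hM' l (hSM hl)
    unfold twN at h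
    rcases (Nat.Prime.dvd_mul hlp).1 h with h | h
    · have h1 : l ∣ D := by
        rcases hE with rfl | rfl
        · exact h
        · exact hlp.dvd_of_dvd_pow h
      exact hC.2.2 l (hSM hl) h1
    · obtain ⟨i, -, hi⟩ := (hlp.prime.dvd_finsetProd_iff _).1 h
      have h1 := hlp.dvd_of_dvd_pow hi
      have h2 := (Nat.prime_dvd_prime_iff_eq hlp (hM' i.1 i.2)).1 h1
      rw [ht i (h2 ▸ hl), ZMod.val_zero, pow_zero] at hi
      exact hlp.one_lt.ne' (Nat.dvd_one.1 hi)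
  have hall : ∀ E : ℕ, (E = D ∨ E = D ^ 2) → AllG M E := by
    rintro E (rfl | rfl)
    · exact allG_one hM hC hA
    · exact allG_two hM hC hA
  -- the curves
  have key : ∀ E : ℕ, (E = D ∨ E = D ^ 2) → ∀ t : {l : ℕ // l ∈ M} → ZMod 3,
      (∀ l, l.1 ∈ S → t l = 0) → Module.finrank ℚ K = 3 ^ S.card ∧
      Finite (ED ((twN E M t : ℕ) : K)).toAffine.Point ∧
      ∃ G : ℂ → ℂ, Differentiable ℂ G ∧ G 1 ≠ 0 ∧ ∀ s : ℂ, 3 / 2 < s.re →
        HasProd (fun v : {v : HeightOneSpectrum (𝓞 K) // (B : 𝓞 K) ∉ v.asIdeal} =>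
          Pool.Agent.R432.V.ef ((twN E M t : ℕ) : 𝓞 K) s v.1) (G s) := by
    intro E hE t ht
    have hg := hall E hE t
    obtain ⟨h1, h2, -, G, h4, h5, h6⟩ := all_good hg.1 (hpreS E hE t ht) (fun s => by
      rw [tw_tw hSM t ht s]
      exact (hall E hE _).2) r hr hgen
    refine ⟨h1, h2, inc hB (fun v => rad_mem fun p hp hd => ?_) (fun v hv => ?_) h4 h5 h6⟩
    · rcases (Nat.Prime.dvd_mul hp).1 hd with hd | hd
      · rcases (Nat.Prime.dvd_mul hp).1 hd with hd | hd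
        · exact hd.trans hB3
        · unfold twN at hd
          rcases (Nat.Prime.dvd_mul hp).1 hd with hd | hd
          · rcases hE with rfl | rfl
            · exact hd.trans hBD
            · exact (hp.dvd_of_dvd_pow hd).trans hBD
          · obtain ⟨i, -, hi⟩ := (hp.prime.dvd_finsetProd_iff _).1 hd
            exact (hp.dvd_of_dvd_pow hi).trans (hBM i.1 i.2)
      · obtain ⟨i, hi, hi'⟩ := (hp.prime.dvd_finsetProd_iff _).1 hd
        exact hi'.trans (hBM i (hSM hi))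
    · have hv3 : (3 : 𝓞 K) ∉ v.asIdeal := by
        intro h
        apply hv
        push_cast
        exact Ideal.mul_mem_right _ _ (Ideal.mul_mem_right _ _ h)
      have hvN : ((twN E M t : ℕ) : 𝓞 K) ∉ v.asIdeal := by
        intro h
        apply hv
        push_cast
        exact Ideal.mul_mem_right _ _ (Ideal.mul_mem_left _ _ h)
      obtain ⟨β, hβ⟩ := exists_bv v hv3
      exact ⟨_, hβ.2.1 _ hvN⟩
  refine ⟨(key D (Or.inl rfl) (fun _ => 0) (fun _ _ => rfl)).1, fun c hc a ha => ?_⟩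
  have hT : ∀ T : Finset (Fin (2 * c + 3)), ∃ (N : ℕ), IsTwK K (Dt a T) N ∧
      Finite (ED ((Dt a T : ℤ) : K)).toAffine.Point ∧
      ∃ G : ℂ → ℂ, Differentiable ℂ G ∧ G 1 ≠ 0 ∧ ∀ s : ℂ, 3 / 2 < s.re →
        HasProd (fun v : {v : HeightOneSpectrum (𝓞 K) // (B : 𝓞 K) ∉ v.asIdeal} =>
          Pool.Agent.R432.V.ef ((N : ℕ) : 𝓞 K) s v.1) (G s) := by
    intro T
    obtain ⟨E, w, z, hE, hw, hz, h1⟩ := fam_abs ha hD0 T
    obtain ⟨t, ht, h2⟩ := tw_K hM' hr hw hz h1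
    obtain ⟨-, h3, h4⟩ := key E hE t ht
    exact ⟨_, h2, fin_K h2 (hall E hE t).1.1.1 h3, h4⟩
  choose N hN using hT
  refine ⟨fun T _ => (hN T).2.1, main_LK hc (fun v hv h => hv ?_) (fun v i hv h => hv ?_) N
    (fun T _ => (hN T).1) (fun T _ => (hN T).2.2)⟩
  · obtain ⟨k, hk⟩ := hB3
    rw [hk]
    push_cast
    exact Ideal.mul_mem_right _ _ h
  · obtain ⟨j, h0, h1⟩ := ha
    have h2 : (((a i).natAbs : ℕ) : 𝓞 K) ∈ v.asIdeal := by
      rcases Int.natAbs_eq (a i) with h3 | h3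
      · rw [h3] at h
        simpa using h
      · rw [h3] at h
        simpa using h
    refine rad_mem (fun p hp hd => ?_) h2
    by_cases hi : i = j
    · rw [hi] at hd
      rcases h0 with h0 | h0
      · rw [h0] at hd
        exact hd.trans hBD
      · rw [h0] at hd
        exact (hp.dvd_of_dvd_pow hd).trans hBD
    · exact hBM p ((h1 i hi).2 p hp (Int.natCast_dvd.2 hd))

end field

end Pool.Agent.N883.DQ
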