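import Pool.Agent.N883.DQ.FamK

/-!
# Diagonal cubic threefolds and fivefolds: the infinite towers
-/

set_option autoImplicit false
set_option linter.unusedSectionVars false
set_option linter.unusedVariables false

open scoped Classical

namespace Pool.Agent.N883.DQ

open Finset
open Pool.Agent.Y703.CT (Cls NoSplit Base)
open Pool.Agent.R432.JG (twN Cl AdmM moreM ext_good)

/-- infinitely many primes can be added -/
theorem more {M : Finset ℕ} (hM : ∀ l ∈ M, l.Prime ∧ l % 9 = 1) {D : ℕ} (hC : Cl M D)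
    (hA : ∀ t : {l : ℕ // l ∈ M} → ZMod 3, NoSplit (twN D M t)) :
    {l : ℕ | l.Prime ∧ l % 9 = 1 ∧ ¬ l ∣ D ∧ l ∉ M ∧
      ∀ t : {x : ℕ // x ∈ insert l M} → ZMod 3, NoSplit (twN D (insert l M) t)}.Infinite := by
  obtain ⟨q, hq, -, hqD, -⟩ := hC.2.1.2.2.2
  have h0 : AdmM D M (fun _ => q) ∅ := ⟨fun l hl => absurd hl (notMem_empty l),
    fun l hl => absurd hl (notMem_empty l), fun l hl => absurd hl (notMem_empty l),
    fun l hl => absurd hl (notMem_empty l), fun l hl => absurd hl (notMem_empty l),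
    fun l hl => absurd hl (notMem_empty l), fun l hl => absurd hl (notMem_empty l),
    fun l hl => absurd hl (notMem_empty l), fun l hl => absurd hl (notMem_empty l)⟩
  refine (moreM hM hC h0 hq hqD).mono ?_
  rintro l ⟨-, h1⟩
  have hl : l ∈ insert l (∅ : Finset ℕ) := mem_insert_self l ∅
  refine ⟨h1.pr l hl, h1.nine l hl, h1.nd l hl, h1.nM l hl, ?_⟩
  have h2 : insert l M = M ∪ insert l ∅ := by
    ext x
    simp only [mem_insert, mem_union, notMem_empty, or_false]
    tauto
  rw [h2]
  exact ext_good Pool.Agent.Y333.CX.t_LAM hM hC h1 hA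

end Pool.Agent.N883.DQ
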